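import Mathlib

set_option autoImplicit false

namespace Pool.Agent.H90.FR

open AddMonoidAlgebra

universe u v w

section

variable {κ : Type v} [Field κ] {Γ : Type w} [AddCommGroup Γ] {Q : Type u} [AddCommGroup Q]

/-- The action of `κ[Γ]` on the functions `Q → κ[Γ]`: translation along `Q`, multiplication by
the complementary part. -/
noncomputable def tw (κ : Type v) [Field κ] (te : Q →+ Γ) (p : Γ →+ Q) :
    κ[Γ] →ₐ[κ] Module.End κ (Q → κ[Γ]) :=
  AddMonoidAlgebra.lift κ _ Γ
    { toFun := fun γ =>
        { toFun := fun w q => single (Multiplicative.toAdd γ - te (p (Multiplicative.toAdd γ)))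
            (1 : κ) * w (q - p (Multiplicative.toAdd γ))
          map_add' := by
            intro w w'
            funext q
            simp only [Pi.add_apply, mul_add]
          map_smul' := by
            intro c w
            funext q
            simp only [Pi.smul_apply, mul_smul_comm, RingHom.id_apply] }
      map_one' := by
        apply LinearMap.ext
        intro w
        funext q
        change single ((0 : Γ) - te (p 0)) (1 : κ) * w (q - p 0) = w q
        rw [map_zero, map_zero, sub_zero, sub_zero]
        exact one_mul _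
      map_mul' := by
        intro a b
        apply LinearMap.ext
        intro w
        funext q
        change single ((Multiplicative.toAdd a + Multiplicative.toAdd b) -
            te (p (Multiplicative.toAdd a + Multiplicative.toAdd b))) (1 : κ) *
            w (q - p (Multiplicative.toAdd a + Multiplicative.toAdd b)) =
          single (Multiplicative.toAdd a - te (p (Multiplicative.toAdd a))) (1 : κ) *
            (single (Multiplicative.toAdd b - te (p (Multiplicative.toAdd b))) (1 : κ) *
              w (q - p (Multiplicative.toAdd a) - p (Multiplicative.toAdd b)))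
        rw [← mul_assoc, single_mul_single, one_mul, map_add, map_add, sub_sub]
        congr 3
        abel }

/-- The specialization of the `Q`-part to a character. -/
noncomputable def sp (te : Q →+ Γ) (p : Γ →+ Q) (χ : Multiplicative Q →* κ) :
    κ[Γ] →ₐ[κ] κ[Γ] :=
  AddMonoidAlgebra.lift κ _ Γ
    { toFun := fun γ => single (Multiplicative.toAdd γ - te (p (Multiplicative.toAdd γ)))
            (χ (Multiplicative.ofAdd (p (Multiplicative.toAdd γ))))
      map_one' := by
        change single ((0 : Γ) - te (p 0)) (χ (Multiplicative.ofAdd (p 0))) = 1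
        rw [map_zero, map_zero, sub_zero, ofAdd_zero, map_one]
        rfl
      map_mul' := by
        intro a b
        change single ((Multiplicative.toAdd a + Multiplicative.toAdd b) -
            te (p (Multiplicative.toAdd a + Multiplicative.toAdd b)))
            (χ (Multiplicative.ofAdd (p (Multiplicative.toAdd a + Multiplicative.toAdd b)))) = _
        rw [single_mul_single, map_add, map_add, ofAdd_add, map_mul]
        congr 1
        abel }

theorem tw_single (te : Q →+ Γ) (p : Γ →+ Q) (γ : Γ) (w : Q → κ[Γ]) (q : Q) :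
    tw κ te p (single γ 1) w q = single (γ - te (p γ)) 1 * w (q - p γ) := by
  unfold tw
  rw [AddMonoidAlgebra.lift_single, one_smul]
  rfl

theorem sp_single (te : Q →+ Γ) (p : Γ →+ Q) (χ : Multiplicative Q →* κ) (γ : Γ) :
    sp te p χ (single γ 1) = single (γ - te (p γ)) (χ (Multiplicative.ofAdd (p γ))) := by
  unfold sp
  rw [AddMonoidAlgebra.lift_single, one_smul]
  rfl

theorem tw_eigen (te : Q →+ Γ) (p : Γ →+ Q) (χ : Multiplicative Q →* κ) (Δ : κ[Γ]) :
    tw κ te p Δ (fun q => single 0 (χ (Multiplicative.ofAdd (-q)))) 0 = sp te p χ Δ := by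
  induction Δ using AddMonoidAlgebra.induction_linear with
  | zero =>
    rw [map_zero, map_zero]
    rfl
  | add a b ha hb =>
    rw [map_add, map_add, LinearMap.add_apply, Pi.add_apply, ha, hb]
  | single γ a =>
    have h : (single γ a : κ[Γ]) = a • single γ 1 := by
      rw [smul_single, smul_eq_mul, mul_one]
    rw [h, map_smul, map_smul, LinearMap.smul_apply, Pi.smul_apply, tw_single, sp_single,
      single_mul_single, zero_sub, neg_neg, one_mul, add_zero]

end

/-- The chain argument. -/
theorem chain {ι : Type} [DecidableEq ι] {κ : Type v} [Field κ] {Γ : Type w} [AddCommGroup Γ]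
    (Q : ι → Type u) [∀ i, AddCommGroup (Q i)] (U : Finset ι) (te : ∀ i, Q i →+ Γ)
    (p : ∀ i, Γ →+ Q i) (hpi : ∀ i ∈ U, ∀ j ∈ U, i ≠ j → ∀ q, p i (te j q) = 0)
    (χ : ∀ i, Multiplicative (Q i) →* κ) {m : ℕ} (c : ι → Fin m → κ[Γ])
    (hc : ∀ k ∈ U, ∀ π : κ[Γ] →ₐ[κ] κ[Γ], (∀ q, π (single (te k q) 1) = single (te k q) 1) →
      ∃ v : Fin m → (Q k → κ[Γ]),
        (∀ i ∈ U, i ≠ k → ∑ l, tw κ (te k) (p k) (π (c i l)) (v l) = 0) ∧
        ∑ l, tw κ (te k) (p k) (π (c k l)) (v l) =
          fun q => single 0 (χ k (Multiplicative.ofAdd (-q)))) :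
    ∀ (j : ℕ) (e : Fin j → ι), Function.Injective e → (∀ i, e i ∈ U) →
      ∀ π : κ[Γ] →ₐ[κ] κ[Γ], (∀ i q, π (single (te (e i) q) 1) = single (te (e i) q) 1) →
      ∃ g : Fin j → Fin m, π (Matrix.det (Matrix.of fun i i' => c (e i) (g i'))) ≠ 0 := by
  intro j
  induction j with
  | zero =>
    intro e _ _ π _
    refine ⟨fun i => i.elim0, ?_⟩
    rw [Matrix.det_isEmpty, map_one]
    exact one_ne_zero
  | succ j ih =>
    intro e he heU π hπ
    set k := e (Fin.last j) with hk
    obtain ⟨g, hg⟩ := ih (fun i => e i.castSucc) (fun a b h => Fin.castSucc_injective j (he h))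
      (fun i => heU _) ((sp (te k) (p k) (χ k)).comp π) (by
        intro i q
        rw [AlgHom.comp_apply, hπ, sp_single,
          hpi k (heU _) (e i.castSucc) (heU _) (by
            intro h
            have h1 := he h
            exact absurd h1 (Fin.castSucc_lt_last i).ne')]
        rw [map_zero, sub_zero, ofAdd_zero, map_one])
    by_contra hcon
    push Not at hcon
    obtain ⟨v, hv0, hv1⟩ := hc k (heU _) π (fun q => hπ (Fin.last j) q)
    let D : Fin (j + 1) → κ[Γ] := fun i => (-1) ^ ((i : ℕ) + (Fin.last j : ℕ)) *
      Matrix.det (Matrix.of fun (a b : Fin j) => c (e (i.succAbove a)) (g b))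
    have hD : ∀ l, π (∑ i, D i * c (e i) l) = 0 := by
      intro l
      rw [← hcon (Fin.snoc g l)]
      congr 1
      rw [Matrix.det_succ_column _ (Fin.last j)]
      refine Finset.sum_congr rfl fun i _ => ?_
      have : (Matrix.submatrix (Matrix.of fun (i i' : Fin (j + 1)) => c (e i)
          ((Fin.snoc g l : Fin (j + 1) → Fin m) i')) i.succAbove (Fin.last j).succAbove) =
          (Matrix.of fun (a b : Fin j) => c (e (i.succAbove a)) (g b)) := by
        ext1 a b
        change c (e (i.succAbove a)) ((Fin.snoc g l : Fin (j + 1) → Fin m)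
          ((Fin.last j).succAbove b)) = _
        rw [Fin.succAbove_last, Fin.snoc_castSucc]
        rfl
      rw [this, Matrix.of_apply, Fin.snoc_last]
      change (_ * _) * _ = _ * _ * _
      ring
    have h1 : ∑ l, tw κ (te k) (p k) (π (∑ i, D i * c (e i) l)) (v l) = 0 := by
      refine Finset.sum_eq_zero fun l _ => ?_
      rw [hD, map_zero]
      rfl
    have h2 : ∑ l, tw κ (te k) (p k) (π (∑ i, D i * c (e i) l)) (v l) =
        ∑ i, tw κ (te k) (p k) (π (D i))
          (∑ l, tw κ (te k) (p k) (π (c (e i) l)) (v l)) := by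
      have h3 : ∀ l, tw κ (te k) (p k) (π (∑ i, D i * c (e i) l)) (v l) =
          ∑ i, tw κ (te k) (p k) (π (D i)) (tw κ (te k) (p k) (π (c (e i) l)) (v l)) := by
        intro l
        rw [map_sum, map_sum, LinearMap.sum_apply]
        refine Finset.sum_congr rfl fun i _ => ?_
        rw [map_mul, map_mul, Module.End.mul_apply]
      simp only [h3]
      rw [Finset.sum_comm]
      refine Finset.sum_congr rfl fun i _ => ?_
      rw [map_sum]
    rw [h1, Finset.sum_eq_single (Fin.last j)] at h2
    · rw [← hk, hv1] at h2
      have h4 := congrFun h2 0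
      rw [tw_eigen] at h4
      apply hg
      rw [AlgHom.comp_apply]
      have h5 : D (Fin.last j) =
          Matrix.det (Matrix.of fun (i i' : Fin j) => c (e i.castSucc) (g i')) := by
        change (-1) ^ ((Fin.last j : ℕ) + (Fin.last j : ℕ)) * _ = _
        rw [Even.neg_one_pow ⟨_, rfl⟩, one_mul]
        congr 1
        ext1 a b
        rw [Matrix.of_apply, Matrix.of_apply, Fin.succAbove_last]
      rw [← h5]
      exact h4.symm
    · intro i _ hi
      rw [hv0 (e i) (heU i) (fun h => hi (he h)), map_zero]
    · intro h
      exact absurd (Finset.mem_univ _) h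

end Pool.Agent.H90.FR
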