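import Mathlib

set_option autoImplicit false

/-! Crossed maps on a free product: coefficients of the elements of a normal closure. -/

namespace Pool.Agent.H90.FR

open AddMonoidAlgebra

universe u v w

/-- Every element of the normal closure of `r` is, for every crossed map at once, a combination
of the values at the relators. -/
theorem coeffs {F : Type u} [Group F] {m : ℕ} (r : Fin m → F) {κ : Type v} [Field κ]
    {Γ : Type w} [AddCommGroup Γ] (θ : F → Γ) (hθ : ∀ x y, θ (x * y) = θ x + θ y)
    (hr : ∀ l, θ (r l) = 0) (x : F) (hx : x ∈ Subgroup.normalClosure (Set.range r)) :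
    θ x = 0 ∧ ∃ c : Fin m → κ[Γ], ∀ (M : Type (max v w)) [AddCommGroup M] [Module κ M]
      (act : κ[Γ] →ₐ[κ] Module.End κ M) (δ : F → M),
      (∀ x y, δ (x * y) = δ x + act (single (θ x) 1) (δ y)) →
      δ x = ∑ l, act (c l) (δ (r l)) := by
  have hθ1 : θ 1 = 0 := by
    have := hθ 1 1
    simpa using this
  have hθi : ∀ x, θ x⁻¹ = - θ x := by
    intro x
    have := hθ x⁻¹ x
    rw [inv_mul_cancel, hθ1] at this
    exact eq_neg_of_add_eq_zero_left this.symm
  have hδ1 : ∀ (M : Type (max v w)) [AddCommGroup M] [Module κ M]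
      (act : κ[Γ] →ₐ[κ] Module.End κ M) (δ : F → M),
      (∀ x y, δ (x * y) = δ x + act (single (θ x) 1) (δ y)) → δ 1 = 0 := by
    intro M _ _ act δ h
    have h1 := h 1 1
    rw [hθ1, mul_one] at h1
    have h2 : (single (0 : Γ) (1 : κ) : κ[Γ]) = 1 := rfl
    rw [h2, map_one] at h1
    simpa using h1
  induction hx using Subgroup.closure_induction with
  | mem x hx =>
    obtain ⟨a, ha, hax⟩ := Group.mem_conjugatesOfSet_iff.1 hx
    obtain ⟨l, rfl⟩ := ha
    obtain ⟨g, rfl⟩ := isConj_iff.1 hax
    refine ⟨by rw [hθ, hθ, hθi, hr]; simp, fun l' => if l' = l then single (θ g) 1 else 0, ?_⟩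
    intro M _ _ act δ h
    have h1 : δ (g * r l * g⁻¹) = δ g + act (single (θ g) 1) (δ (r l)) +
        act (single (θ g) 1) (δ g⁻¹) := by
      rw [h, h, hθ, hr, add_zero]
    have h2 : δ g + act (single (θ g) 1) (δ g⁻¹) = 0 := by
      rw [← h, mul_inv_cancel]
      exact hδ1 M act δ h
    rw [h1, Finset.sum_eq_single l]
    · beta_reduce
      rw [if_pos rfl]
      have : δ g + act (single (θ g) 1) (δ (r l)) + act (single (θ g) 1) (δ g⁻¹) =
        (δ g + act (single (θ g) 1) (δ g⁻¹)) + act (single (θ g) 1) (δ (r l)) := by abel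
      rw [this, h2, zero_add]
    · intro b _ hb
      beta_reduce
      rw [if_neg hb, map_zero]
      rfl
    · intro h
      exact absurd (Finset.mem_univ _) h
  | one =>
    refine ⟨hθ1, 0, ?_⟩
    intro M _ _ act δ h
    rw [hδ1 M act δ h]
    simp
  | mul x y _ _ ihx ihy =>
    obtain ⟨hx0, c, hc⟩ := ihx
    obtain ⟨hy0, d, hd⟩ := ihy
    refine ⟨by rw [hθ, hx0, hy0, add_zero], c + d, ?_⟩
    intro M _ _ act δ h
    have h2 : (single (0 : Γ) (1 : κ) : κ[Γ]) = 1 := rfl
    rw [h, hx0, h2, map_one, hc M act δ h, Module.End.one_apply, hd M act δ h,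
      ← Finset.sum_add_distrib]
    refine Finset.sum_congr rfl fun l _ => ?_
    rw [Pi.add_apply, map_add]
    rfl
  | inv x _ ihx =>
    obtain ⟨hx0, c, hc⟩ := ihx
    refine ⟨by rw [hθi, hx0, neg_zero], -c, ?_⟩
    intro M _ _ act δ h
    have h2 : (single (0 : Γ) (1 : κ) : κ[Γ]) = 1 := rfl
    have h3 := h x x⁻¹
    rw [mul_inv_cancel, hδ1 M act δ h, hx0, h2, map_one, Module.End.one_apply] at h3
    rw [← neg_eq_of_add_eq_zero_right h3.symm, hc M act δ h, ← Finset.sum_neg_distrib]
    refine Finset.sum_congr rfl fun l _ => ?_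
    rw [Pi.neg_apply, map_neg]
    rfl

/-- Crossed maps on the factors extend to the free product. -/
theorem extend {ι : Type u} {A : ι → Type v} [∀ i, Group (A i)] {κ : Type v} [Field κ]
    {M : Type w} [AddCommGroup M] [Module κ M] (ρ : Monoid.CoprodI A →* Module.End κ M) (d : ∀ i, A i → M)
    (hd : ∀ i a b, d i (a * b) = d i a + ρ (Monoid.CoprodI.of a) (d i b)) :
    ∃ δ : Monoid.CoprodI A → M, (∀ x y, δ (x * y) = δ x + ρ x (δ y)) ∧
      ∀ i (a : A i), δ (Monoid.CoprodI.of a) = d i a := by
  have hd1 : ∀ i, d i 1 = 0 := by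
    intro i
    have h1 := hd i 1 1
    rw [mul_one, map_one, map_one] at h1
    simpa using h1
  let f : ∀ i, A i →* Function.End M := fun i =>
    { toFun := fun a v => d i a + ρ (Monoid.CoprodI.of a) v
      map_one' := by
        funext v
        simp [hd1]
        rfl
      map_mul' := by
        intro a b
        funext v
        change d i (a * b) + ρ (Monoid.CoprodI.of (a * b)) v =
          d i a + ρ (Monoid.CoprodI.of a) (d i b + ρ (Monoid.CoprodI.of b) v)
        rw [hd, map_mul, map_mul, map_add, add_assoc]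
        rfl }
  let g : Monoid.CoprodI A →* Function.End M := Monoid.CoprodI.lift f
  have hg : ∀ x v, g x v = g x 0 + ρ x v := by
    intro x
    induction x using Monoid.CoprodI.induction_on with
    | one =>
      intro v
      rw [map_one, map_one]
      change v = 0 + v
      rw [zero_add]
    | of i a =>
      intro v
      have : g (Monoid.CoprodI.of a) = f i a := Monoid.CoprodI.lift_of f a
      rw [this]
      change d i a + ρ (Monoid.CoprodI.of a) v = d i a + ρ (Monoid.CoprodI.of a) 0 +
        ρ (Monoid.CoprodI.of a) v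
      rw [map_zero, add_zero]
    | mul x y hx hy =>
      intro v
      rw [map_mul, map_mul]
      change g x (g y v) = g x (g y 0) + ρ x (ρ y v)
      rw [hx (g y v), hx (g y 0), hy v, map_add]
      abel
  refine ⟨fun x => g x 0, ?_, ?_⟩
  · intro x y
    change g (x * y) 0 = _
    rw [map_mul]
    change g x (g y 0) = _
    rw [hg]
  · intro i a
    have : g (Monoid.CoprodI.of a) = f i a := Monoid.CoprodI.lift_of f a
    change g (Monoid.CoprodI.of a) 0 = _
    rw [this]
    change d i a + ρ (Monoid.CoprodI.of a) 0 = d i a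
    rw [map_zero, add_zero]

end Pool.Agent.H90.FR
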