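import Mathlib

set_option autoImplicit false

/-! The rational derived series of a group: `ratDer G` is the kernel of `G → Gᵃᵇ ⊗ ℚ`. -/

namespace Pool.Agent.H90.FR

universe u

/-- The rational derived subgroup: the elements whose image in the abelianization of `G` has
finite order. -/
def ratDer (G : Type u) [Group G] : Subgroup G :=
  (CommGroup.torsion (Abelianization G)).comap Abelianization.of

/-- The second rational derived subgroup: the rational derived subgroup of `ratDer G`. -/
def ratDer2 (G : Type u) [Group G] : Subgroup G :=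
  (ratDer (ratDer G)).map (ratDer G).subtype

theorem mem_ratDer2 {G : Type u} [Group G] (a : G) :
    a ∈ ratDer2 G ↔ ∃ h : a ∈ ratDer G, (⟨a, h⟩ : ratDer G) ∈ ratDer (ratDer G) := by
  unfold ratDer2
  rw [Subgroup.mem_map]
  constructor
  · rintro ⟨x, hx, rfl⟩
    exact ⟨x.2, hx⟩
  · rintro ⟨h, hx⟩
    exact ⟨⟨a, h⟩, hx, rfl⟩

end Pool.Agent.H90.FR
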