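import Mathlib
import Pool.Agent.Lib_helper90.FR.Defs

set_option autoImplicit false

namespace Pool.Agent.H90.FR

open AddMonoidAlgebra TensorProduct

universe u v

/-- The rationalized abelianization. -/
theorem tensor_data (G : Type u) [Group G] :
    ∃ (Q : Type u) (_ : AddCommGroup Q) (_ : Module ℚ Q) (α : G → Q),
      (∀ a b, α (a * b) = α a + α b) ∧ (∀ a, α a = 0 ↔ a ∈ ratDer G) := by
  refine ⟨ℚ ⊗[ℤ] Additive (Abelianization G), inferInstance, inferInstance,
    fun a => (1 : ℚ) ⊗ₜ[ℤ] Additive.ofMul (Abelianization.of a), ?_, ?_⟩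
  · intro a b
    beta_reduce
    rw [map_mul, ofMul_mul, TensorProduct.tmul_add]
  · intro a
    have h1 := IsLocalizedModule.eq_zero_iff (nonZeroDivisors ℤ)
      (TensorProduct.mk ℤ ℚ (Additive (Abelianization G)) 1)
      (m := Additive.ofMul (Abelianization.of a))
    rw [TensorProduct.mk_apply] at h1
    rw [h1]
    unfold ratDer
    rw [Subgroup.mem_comap, CommGroup.mem_torsion, isOfFinOrder_iff_zpow_eq_one]
    constructor
    · rintro ⟨c, hc⟩
      refine ⟨(c : ℤ), nonZeroDivisors.coe_ne_zero c, ?_⟩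
      have h2 : (c : ℤ) • Additive.ofMul (Abelianization.of a) = 0 := hc
      rw [← ofMul_zpow] at h2
      exact Additive.ofMul.injective h2
    · rintro ⟨n, hn, h⟩
      refine ⟨⟨n, mem_nonZeroDivisors_of_ne_zero hn⟩, ?_⟩
      change n • Additive.ofMul (Abelianization.of a) = 0
      rw [← ofMul_zpow, h]
      rfl

theorem functional {G : Type u} [Group G] (a₀ : G) (h : a₀ ∉ ratDer G) :
    ∃ φ : G → ℚ, (∀ a b, φ (a * b) = φ a + φ b) ∧ φ a₀ ≠ 0 := by
  obtain ⟨Q, _, _, α, hα, hk⟩ := tensor_data G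
  have h0 : α a₀ ≠ 0 := fun h1 => h ((hk a₀).1 h1)
  obtain ⟨f, hf⟩ := Module.exists_dual_forall_apply_ne_zero (K := ℚ) (fun _ : Unit => α a₀)
    (fun _ => h0)
  exact ⟨fun a => f (α a), fun a b => by beta_reduce; rw [hα, map_add], hf ()⟩

/-- The crossed map of Kaluzhnin and Krasner, composed with a functional. -/
theorem crossed {G : Type u} [Group G] {Q : Type v} [AddCommGroup Q] (α : G → Q)
    (hα : ∀ a b, α (a * b) = α a + α b) (hk : ∀ a, α a = 0 ↔ a ∈ ratDer G) (a₀ : G)
    (h₀ : a₀ ∈ ratDer G) (h : a₀ ∉ ratDer2 G) :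
    ∃ δ : G → Q → ℚ, (∀ a b q, δ (a * b) q = δ a q + δ b (q - α a)) ∧ δ a₀ ≠ 0 := by
  classical
  have hα1 : α 1 = 0 := by
    have := hα 1 1
    simpa using this
  have hαi : ∀ x, α x⁻¹ = - α x := by
    intro x
    have := hα x⁻¹ x
    rw [inv_mul_cancel, hα1] at this
    exact eq_neg_of_add_eq_zero_left this.symm
  obtain ⟨φ, hφ, hφ0⟩ := functional (⟨a₀, h₀⟩ : ratDer G)
    (fun h1 => h ((mem_ratDer2 a₀).2 ⟨h₀, h1⟩))
  have ht : ∃ t : Q → G, t 0 = 1 ∧ ∀ a, α (t (α a)) = α a := by
    refine ⟨fun q => if q = 0 then 1 else if hq : ∃ a, α a = q then hq.choose else 1, ?_, ?_⟩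
    · simp
    · intro a
      by_cases h0 : α a = 0
      · simp only [h0, if_true, hα1]
      · have hq : ∃ b, α b = α a := ⟨a, rfl⟩
        simp only [h0, if_false, dif_pos hq]
        exact hq.choose_spec
  obtain ⟨t, ht0, ht⟩ := ht
  have hmem : ∀ a q, (∃ b, α b = q) → (t q)⁻¹ * a * t (q - α a) ∈ ratDer G := by
    rintro a q ⟨b, rfl⟩
    rw [← hk, hα, hα, hαi, ht]
    have : α b - α a = α (b * a⁻¹) := by rw [hα, hαi, sub_eq_add_neg]
    rw [this, ht, hα, hαi]
    abel
  refine ⟨fun a q => if hq : ∃ b, α b = q then φ ⟨(t q)⁻¹ * a * t (q - α a), hmem a q hq⟩ else 0,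
    ?_, ?_⟩
  · intro a b q
    beta_reduce
    by_cases hq : ∃ b, α b = q
    · have hq' : ∃ b, α b = q - α a := by
        obtain ⟨c, rfl⟩ := hq
        exact ⟨c * a⁻¹, by rw [hα, hαi, sub_eq_add_neg]⟩
      rw [dif_pos hq, dif_pos hq, dif_pos hq', ← hφ]
      congr 1
      apply Subtype.ext
      change (t q)⁻¹ * (a * b) * t (q - α (a * b)) =
        ((t q)⁻¹ * a * t (q - α a)) * ((t (q - α a))⁻¹ * b * t (q - α a - α b))
      rw [hα, ← sub_sub]
      group
    · have hq' : ¬ ∃ b, α b = q - α a := by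
        rintro ⟨c, hc⟩
        exact hq ⟨c * a, by rw [hα, hc]; abel⟩
      rw [dif_neg hq, dif_neg hq, dif_neg hq', add_zero]
  · intro h0
    have h1 := congrFun h0 0
    beta_reduce at h1
    have hq : ∃ b, α b = 0 := ⟨1, hα1⟩
    rw [dif_pos hq] at h1
    apply hφ0
    refine Eq.trans ?_ h1
    congr 1
    apply Subtype.ext
    change a₀ = (t 0)⁻¹ * a₀ * t (0 - α a₀)
    rw [(hk a₀).2 h₀, sub_zero, ht0]
    group

/-- A character and a functional which turns a given function into that character. -/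
theorem field_char {P : Type u} [AddCommGroup P] (y : P → ℚ) (hy : y ≠ 0) :
    ∃ (κ : Type u) (_ : Field κ) (_ : Algebra ℚ κ) (χ : Multiplicative P →* κ)
      (ψ : (P → ℚ) →ₗ[ℚ] κ), ∀ q, ψ (fun x => y (x - q)) = χ (Multiplicative.ofAdd q) := by
  let tr : Multiplicative P →* Module.End ℚ (P → ℚ) :=
    { toFun := fun q =>
        { toFun := fun w x => w (x - Multiplicative.toAdd q)
          map_add' := fun _ _ => rfl
          map_smul' := fun _ _ => rfl }
      map_one' := by
        ext w x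
        simp
      map_mul' := by
        intro a b
        apply LinearMap.ext
        intro w
        funext x
        change w (x - Multiplicative.toAdd (a * b)) =
          w (x - Multiplicative.toAdd a - Multiplicative.toAdd b)
        rw [toAdd_mul, sub_sub] }
  let act : ℚ[P] →ₐ[ℚ] Module.End ℚ (P → ℚ) := AddMonoidAlgebra.lift ℚ _ P tr
  let I : Ideal ℚ[P] :=
    { carrier := {Δ | act Δ y = 0}
      add_mem' := by
        intro a b ha hb
        change act (a + b) y = 0
        rw [map_add, LinearMap.add_apply, ha, hb, add_zero]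
      zero_mem' := by
        change act 0 y = 0
        rw [map_zero]
        rfl
      smul_mem' := by
        intro c x hx
        change act (c * x) y = 0
        rw [map_mul, Module.End.mul_apply, hx, map_zero] }
  have hI : I ≠ ⊤ := by
    intro h
    have h1 : (1 : ℚ[P]) ∈ I := h ▸ Submodule.mem_top
    apply hy
    have h2 : act 1 y = 0 := h1
    rw [map_one] at h2
    exact h2
  obtain ⟨𝔪, h𝔪, hle⟩ := Ideal.exists_le_maximal I hI
  let : Field (ℚ[P] ⧸ 𝔪) := Ideal.Quotient.field 𝔪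
  let e : ℚ[P] →ₗ[ℚ] (P → ℚ) :=
    { toFun := fun Δ => act Δ y
      map_add' := fun a b => by rw [map_add]; rfl
      map_smul' := fun a b => by rw [map_smul]; rfl }
  let q : ℚ[P] →ₐ[ℚ] (ℚ[P] ⧸ 𝔪) := Ideal.Quotient.mkₐ ℚ 𝔪
  obtain ⟨s, hs⟩ := e.rangeRestrict.exists_rightInverse_of_surjective e.range_rangeRestrict
  obtain ⟨ψ, hψ⟩ := LinearMap.exists_extend (q.toLinearMap.comp s)
  refine ⟨ℚ[P] ⧸ 𝔪, inferInstance, inferInstance,
    (q : ℚ[P] →* (ℚ[P] ⧸ 𝔪)).comp (AddMonoidAlgebra.of ℚ P), ψ, ?_⟩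
  intro p
  have h1 : (fun x => y (x - p)) = e (single p 1) := by
    change _ = act (single p 1) y
    change _ = (AddMonoidAlgebra.lift ℚ _ P tr) (single p 1) y
    rw [AddMonoidAlgebra.lift_single, one_smul]
    rfl
  rw [h1]
  have h2 : ψ (e (single p 1)) = q (s (e.rangeRestrict (single p 1))) := by
    have h3 := LinearMap.congr_fun hψ (e.rangeRestrict (single p 1))
    exact h3
  rw [h2]
  have h4 : e (s (e.rangeRestrict (single p 1))) = e (single p 1) := by
    have h5 := LinearMap.congr_fun hs (e.rangeRestrict (single p 1))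
    have h6 := congrArg Subtype.val h5
    exact h6
  change q (s (e.rangeRestrict (single p 1))) = q (AddMonoidAlgebra.of ℚ P (Multiplicative.ofAdd p))
  rw [AddMonoidAlgebra.of_apply]
  change Ideal.Quotient.mk 𝔪 _ = Ideal.Quotient.mk 𝔪 _
  rw [Ideal.Quotient.eq]
  apply hle
  change act (s (e.rangeRestrict (single p 1)) - single p 1) y = 0
  rw [map_sub, LinearMap.sub_apply, sub_eq_zero]
  exact h4

/-- One field and characters for a finite family of functions. -/
theorem field_family {ι : Type} [Fintype ι] [DecidableEq ι] {Q : ι → Type u}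
    [∀ i, AddCommGroup (Q i)] (y : ∀ i, Q i → ℚ) (hy : ∀ i, y i ≠ 0) :
    ∃ (κ : Type u) (_ : Field κ) (_ : Algebra ℚ κ) (χ : ∀ i, Multiplicative (Q i) →* κ)
      (ψ : ∀ i, (Q i → ℚ) →ₗ[ℚ] κ),
      ∀ i q, ψ i (fun x => y i (x - q)) = χ i (Multiplicative.ofAdd q) := by
  have hex : ∀ i, ∃ x, y i x ≠ 0 := by
    intro i
    by_contra h
    push Not at h
    exact hy i (funext h)
  choose x₀ hx₀ using hex
  obtain ⟨κ, _, _, χ, ψ, hψ⟩ := field_char (P := ∀ i, Q i) (fun x => ∏ i, y i (x i)) (by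
    intro h
    have h1 := congrFun h x₀
    exact Finset.prod_ne_zero_iff.2 (fun i _ => hx₀ i) h1)
  let mu : ∀ i, (Q i → ℚ) →ₗ[ℚ] ((∀ i, Q i) → ℚ) := fun i =>
    { toFun := fun f x => f (x i) * ∏ j ∈ Finset.univ.erase i, y j (x j)
      map_add' := by
        intro f g
        funext x
        simp only [Pi.add_apply, add_mul]
      map_smul' := by
        intro c f
        funext x
        simp only [Pi.smul_apply, smul_mul_assoc, RingHom.id_apply] }
  refine ⟨κ, inferInstance, inferInstance,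
    fun i => χ.comp (AddMonoidHom.toMultiplicative (AddMonoidHom.single Q i)),
    fun i => ψ.comp (mu i), ?_⟩
  intro i q
  have h1 := hψ (Pi.single i q)
  refine Eq.trans ?_ h1
  rw [LinearMap.comp_apply]
  congr 1
  funext x
  change y i (x i - q) * ∏ j ∈ Finset.univ.erase i, y j (x j) =
    ∏ j, y j (x j - (Pi.single i q : ∀ i, Q i) j)
  rw [← Finset.mul_prod_erase _ _ (Finset.mem_univ i), Pi.single_eq_same]
  congr 1
  refine Finset.prod_congr rfl fun j hj => ?_
  rw [Pi.single_eq_of_ne (Finset.ne_of_mem_erase hj), sub_zero]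

end Pool.Agent.H90.FR
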