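import Mathlib

set_option autoImplicit false

namespace Pool.Agent.H90.FR

open AddMonoidAlgebra

universe u v w

open PowerSeries in
/-- A matrix of power series whose leading coefficients are block triangular. -/
theorem det_ne_zero_of_orders {K : Type v} [Fintype K] [DecidableEq K] {κ : Type u} [Field κ]
    (J : K → Prop) (N : Matrix K K κ⟦X⟧)
    (h1 : ∀ k k', J k → J k' → constantCoeff (N k k') = if k = k' then 1 else 0)
    (h2 : ∀ k k', ¬ J k → constantCoeff (N k k') = 0)
    (h3 : ∀ k k', ¬ J k → k ≠ k' → coeff 1 (N k k') = 0)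
    (h4 : ∀ k, ¬ J k → coeff 1 (N k k) ≠ 0) : N.det ≠ 0 := by
  classical
  have hex : ∀ k k', ∃ N' : κ⟦X⟧, N k k' = (if J k then 1 else X) * N' := by
    intro k k'
    by_cases hk : J k
    · exact ⟨N k k', by rw [if_pos hk, one_mul]⟩
    · rw [if_neg hk]
      exact X_dvd_iff.2 (h2 k k' hk)
  choose N' hN' using hex
  have hN : N = Matrix.of fun k k' => (if J k then 1 else X) * (Matrix.of N') k k' := by
    ext1 k k'
    exact hN' k k'
  rw [hN, Matrix.det_mul_column]
  refine mul_ne_zero (Finset.prod_ne_zero_iff.2 fun k _ => ?_) ?_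
  · by_cases hk : J k
    · rw [if_pos hk]
      exact one_ne_zero
    · rw [if_neg hk]
      exact X_ne_zero
  · intro h0
    have hdet : ((constantCoeff (R := κ)).mapMatrix (Matrix.of N')).det = 0 := by
      rw [← RingHom.map_det, h0, map_zero]
    obtain ⟨v, hv, hv0⟩ := Matrix.exists_mulVec_eq_zero_iff.2 hdet
    apply hv
    have hval : ∀ k k', ¬ J k → constantCoeff (N' k k') = coeff 1 (N k k') := by
      intro k k' hk
      rw [hN' k k', if_neg hk]
      have := coeff_succ_X_mul 0 (N' k k')
      rw [zero_add] at this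
      rw [this, coeff_zero_eq_constantCoeff]
    have hvJ : ∀ k, ¬ J k → v k = 0 := by
      intro k hk
      have h5 := congrFun hv0 k
      rw [Matrix.mulVec, dotProduct, Finset.sum_eq_single k] at h5
      · have h6 : constantCoeff (N' k k) * v k = 0 := h5
        rw [hval k k hk] at h6
        exact (mul_eq_zero.1 h6).resolve_left (h4 k hk)
      · intro k' _ hk'
        change constantCoeff (N' k k') * v k' = 0
        rw [hval k k' hk, h3 k k' hk (Ne.symm hk'), zero_mul]
      · intro h
        exact absurd (Finset.mem_univ _) h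
    funext k
    by_cases hk : J k
    · have h5 := congrFun hv0 k
      rw [Matrix.mulVec, dotProduct, Finset.sum_eq_single k] at h5
      · have h6 : constantCoeff (N' k k) * v k = 0 := h5
        have h7 : N' k k = N k k := by rw [hN' k k, if_pos hk, one_mul]
        rw [h7, h1 k k hk hk, if_pos rfl, one_mul] at h6
        exact h6
      · intro k' _ hk'
        change constantCoeff (N' k k') * v k' = 0
        by_cases hk2 : J k'
        · have h7 : N' k k' = N k k' := by rw [hN' k k', if_pos hk, one_mul]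
          rw [h7, h1 k k' hk hk2, if_neg (Ne.symm hk'), zero_mul]
        · rw [hvJ k' hk2, mul_zero]
      · intro h
        exact absurd (Finset.mem_univ _) h
    · exact hvJ k hk

open PowerSeries in
/-- The homomorphism `γ ↦ exp (τ γ X)`. -/
noncomputable def ex {κ : Type u} [Field κ] [Algebra ℚ κ] {Γ : Type v} [AddCommGroup Γ]
    [Module ℚ Γ] (τ : Γ →ₗ[ℚ] ℚ) : κ[Γ] →ₐ[κ] κ⟦X⟧ :=
  AddMonoidAlgebra.lift κ _ Γ
    { toFun := fun γ => rescale (algebraMap ℚ κ (τ (Multiplicative.toAdd γ))) (exp κ)
      map_one' := by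
        change rescale (algebraMap ℚ κ (τ 0)) (exp κ) = 1
        rw [map_zero, map_zero, rescale_zero_apply, constantCoeff_exp, map_one]
      map_mul' := by
        intro a b
        change rescale (algebraMap ℚ κ (τ (Multiplicative.toAdd a + Multiplicative.toAdd b)))
          (exp κ) = _
        rw [map_add, map_add, exp_mul_exp_eq_exp_add] }

open PowerSeries in
theorem ex_single {κ : Type u} [Field κ] [Algebra ℚ κ] {Γ : Type v} [AddCommGroup Γ]
    [Module ℚ Γ] (τ : Γ →ₗ[ℚ] ℚ) (γ : Γ) :
    ex (κ := κ) τ (single γ 1) = rescale (algebraMap ℚ κ (τ γ)) (exp κ) := by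
  unfold ex
  rw [AddMonoidAlgebra.lift_single, one_smul]
  rfl

open PowerSeries in
theorem ex_coeff_zero {κ : Type u} [Field κ] [Algebra ℚ κ] {Γ : Type v} [AddCommGroup Γ]
    [Module ℚ Γ] (τ : Γ →ₗ[ℚ] ℚ) (γ : Γ) :
    constantCoeff (ex (κ := κ) τ (single γ 1)) = 1 := by
  rw [ex_single, ← coeff_zero_eq_constantCoeff_apply, coeff_rescale, pow_zero, one_mul,
    coeff_zero_eq_constantCoeff_apply, constantCoeff_exp]

open PowerSeries in
theorem ex_coeff_one {κ : Type u} [Field κ] [Algebra ℚ κ] {Γ : Type v} [AddCommGroup Γ]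
    [Module ℚ Γ] (τ : Γ →ₗ[ℚ] ℚ) (γ : Γ) :
    coeff 1 (ex (κ := κ) τ (single γ 1)) = algebraMap ℚ κ (τ γ) := by
  rw [ex_single, coeff_rescale, pow_one, coeff_exp]
  simp

end Pool.Agent.H90.FR
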