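import Mathlib

set_option autoImplicit false

namespace Pool.Agent.H90.FR

universe u

/-- The vectors supported on `S`. -/
def suppOn {ι : Type} (Q : ι → Type u) [∀ i, AddCommGroup (Q i)] [∀ i, Module ℚ (Q i)]
    (S : Finset ι) : Submodule ℚ (∀ i, Q i) where
  carrier := {v | ∀ i ∉ S, v i = 0}
  add_mem' := by
    intro a b ha hb i hi
    rw [Pi.add_apply, ha i hi, hb i hi, add_zero]
  zero_mem' := fun i _ => rfl
  smul_mem' := by
    intro c x hx i hi
    rw [Pi.smul_apply, hx i hi, smul_zero]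

theorem selection {ι : Type} [Fintype ι] [DecidableEq ι] (Q : ι → Type u)
    [∀ i, AddCommGroup (Q i)] [∀ i, Module ℚ (Q i)] (R : Submodule ℚ (∀ i, Q i))
    [FiniteDimensional ℚ R] :
    ∃ (J U : Finset ι) (Γ : Type u) (_ : AddCommGroup Γ) (_ : Module ℚ Γ)
      (T : (∀ i, Q i) →ₗ[ℚ] Γ) (p : ∀ i, Γ →ₗ[ℚ] Q i) (s : ι → (∀ i, Q i))
      (f : ι → ((∀ i, Q i) →ₗ[ℚ] ℚ)) (τ : Γ →ₗ[ℚ] ℚ),
      (∀ i ∈ J, i ∉ U) ∧ (∀ x ∈ R, T x = 0) ∧ (∀ i ∈ J, ∀ q, T (Pi.single i q) = 0) ∧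
      (∀ i ∉ J, ∀ q, T (Pi.single i q) = 0 → q = 0) ∧
      (∀ i, ∀ j ∈ U, ∀ q, p i (T (Pi.single j q)) = (Pi.single j q : ∀ i, Q i) i) ∧
      (∀ k ∉ U, s k ∈ R) ∧ (∀ k ∈ J, ∀ e ∉ J, s k e = 0) ∧
      (∀ k ∈ J, ∀ i ∉ J, ∀ q, f k (Pi.single i q) = 0) ∧
      (∀ k ∈ J, ∀ k' ∈ J, f k (s k') = if k = k' then 1 else 0) ∧
      (∀ k ∉ J, k ∉ U → ∀ e ∉ J, e ∉ U → e ≠ k → s k e = 0) ∧
      (∀ k ∉ J, k ∉ U → τ (T (Pi.single k (s k k))) ≠ 0) := by
  classical
  have hsingle : ∀ (S : Finset ι) (i : ι) (q : Q i), i ∈ S →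
      (Pi.single i q : ∀ i, Q i) ∈ suppOn Q S := by
    intro S i q hi j hj
    have : j ≠ i := fun h => hj (h ▸ hi)
    exact Pi.single_eq_of_ne this q
  have hmono : ∀ S S' : Finset ι, S ⊆ S' → suppOn Q S ≤ suppOn Q S' :=
    fun S S' h v hv i hi => hv i fun h' => hi (h h')
  -- the choice of `J`
  obtain ⟨J, hJ, hJmax⟩ := Finset.exists_max_image
    (Finset.univ.filter fun S : Finset ι => S.card ≤
      Module.finrank ℚ ↥(R ⊓ suppOn Q S)) Finset.card ⟨∅, by simp⟩
  rw [Finset.mem_filter] at hJ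
  have hfd : ∀ S, FiniteDimensional ℚ ↥(R ⊓ suppOn Q S) := fun S =>
    Submodule.finiteDimensional_of_le (inf_le_left : R ⊓ suppOn Q S ≤ R)
  have hJeq : ∀ i ∉ J, R ⊓ suppOn Q J = R ⊓ suppOn Q (insert i J) := by
    intro i hi
    have hle : R ⊓ suppOn Q J ≤ R ⊓ suppOn Q (insert i J) :=
      inf_le_inf le_rfl (hmono _ _ (Finset.subset_insert _ _))
    have := hfd (insert i J)
    apply Submodule.eq_of_le_of_finrank_le hle
    by_contra hlt
    push Not at hlt
    have h1 : (insert i J).card ≤ Module.finrank ℚ ↥(R ⊓ suppOn Q (insert i J)) := by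
      rw [Finset.card_insert_of_notMem hi]
      exact Nat.succ_le_of_lt (lt_of_le_of_lt hJ.2 hlt)
    have h2 := hJmax (insert i J) (Finset.mem_filter.2 ⟨Finset.mem_univ _, h1⟩)
    rw [Finset.card_insert_of_notMem hi] at h2
    omega
  set W : Submodule ℚ (∀ i, Q i) := R ⊔ suppOn Q J with hW
  have hinj : ∀ i ∉ J, ∀ q : Q i, (Pi.single i q : ∀ i, Q i) ∈ W → q = 0 := by
    intro i hi q hq
    obtain ⟨x, hx, y, hy, hxy⟩ := Submodule.mem_sup.1 hq
    have hx2 : x ∈ R ⊓ suppOn Q (insert i J) := by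
      refine ⟨hx, fun j hj => ?_⟩
      have h1 := congrFun hxy j
      rw [Finset.mem_insert, not_or] at hj
      rw [Pi.add_apply, hy j hj.2, add_zero, Pi.single_eq_of_ne hj.1] at h1
      exact h1
    rw [← hJeq i hi] at hx2
    have h1 := congrFun hxy i
    rw [Pi.add_apply, hy i hi, add_zero, hx2.2 i hi, Pi.single_eq_same] at h1
    exact h1.symm
  -- the choice of `U`
  obtain ⟨U, hU, hUmax⟩ := Finset.exists_max_image
    (Finset.univ.filter fun S : Finset ι => (∀ i ∈ J, i ∉ S) ∧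
      Disjoint (suppOn Q S) W) Finset.card ⟨∅, by
        rw [Finset.mem_filter]
        refine ⟨Finset.mem_univ _, by simp, ?_⟩
        rw [Submodule.disjoint_def]
        intro x hx _
        funext i
        exact hx i (Finset.notMem_empty i)⟩
  rw [Finset.mem_filter] at hU
  obtain ⟨-, hJU, hUW⟩ := hU
  have hUex : ∀ k, k ∉ J → k ∉ U → ∃ x ∈ R, x k ≠ 0 ∧ ∀ e ∉ J, e ∉ U → e ≠ k → x e = 0 := by
    intro k hkJ hkU
    have h1 : ¬ Disjoint (suppOn Q (insert k U)) W := by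
      intro h
      have h2 := hUmax (insert k U) (Finset.mem_filter.2 ⟨Finset.mem_univ _, ?_, h⟩)
      · rw [Finset.card_insert_of_notMem hkU] at h2
        omega
      · intro i hi hi'
        rcases Finset.mem_insert.1 hi' with rfl | h3
        · exact hkJ hi
        · exact hJU i hi h3
    rw [Submodule.disjoint_def] at h1
    push Not at h1
    obtain ⟨z, hz, hzW, hz0⟩ := h1
    obtain ⟨x, hx, y, hy, hxy⟩ := Submodule.mem_sup.1 hzW
    have hxz : ∀ e ∉ J, x e = z e := by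
      intro e he
      have h3 := congrFun hxy e
      rw [Pi.add_apply, hy e he, add_zero] at h3
      exact h3
    refine ⟨x, hx, ?_, ?_⟩
    · rw [hxz k hkJ]
      intro h0
      apply hz0
      rw [Submodule.disjoint_def] at hUW
      apply hUW z _ hzW
      intro e he
      by_cases hek : e = k
      · rw [hek, h0]
      · exact hz e (by rw [Finset.mem_insert, not_or]; exact ⟨hek, he⟩)
    · intro e he heU hek
      rw [hxz e he]
      exact hz e (by rw [Finset.mem_insert, not_or]; exact ⟨hek, heU⟩)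
  choose! s₁ hs₁R hs₁k hs₁e using hUex
  -- the vectors for `J`
  have := hfd J
  have hcard : Fintype.card J ≤ Fintype.card (Fin (Module.finrank ℚ ↥(R ⊓ suppOn Q J))) := by
    rw [Fintype.card_coe, Fintype.card_fin]
    exact hJ.2
  obtain ⟨g⟩ := Function.Embedding.nonempty_of_card_le hcard
  let b := Module.finBasis ℚ ↥(R ⊓ suppOn Q J)
  have hext : ∀ j : J, ∃ f : (∀ i, Q i) →ₗ[ℚ] ℚ,
      f.comp (R ⊓ suppOn Q J).subtype = b.coord (g j) := fun j => LinearMap.exists_extend _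
  choose f₀ hf₀ using hext
  -- the quotient
  let T : (∀ i, Q i) →ₗ[ℚ] ((∀ i, Q i) ⧸ W) := W.mkQ
  have hT0 : ∀ x, T x = 0 ↔ x ∈ W := fun x => by
    change W.mkQ x = 0 ↔ _
    rw [Submodule.mkQ_apply, Submodule.Quotient.mk_eq_zero]
  obtain ⟨g', hg'⟩ := LinearMap.exists_leftInverse_of_injective
    (T.comp (suppOn Q U).subtype) (by
      rw [LinearMap.ker_eq_bot']
      intro x hx
      rw [LinearMap.comp_apply, hT0] at hx
      rw [Submodule.disjoint_def] at hUW
      exact Subtype.ext (hUW x.1 x.2 hx))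
  let s : ι → (∀ i, Q i) := fun k => if h : k ∈ J then (b (g ⟨k, h⟩) : ∀ i, Q i) else s₁ k
  have hsJ : ∀ k (h : k ∈ J), s k = b (g ⟨k, h⟩) := fun k h => dif_pos h
  have hsE : ∀ k, k ∉ J → s k = s₁ k := fun k h => dif_neg h
  obtain ⟨τ, hτ⟩ := Module.exists_dual_forall_apply_ne_zero (K := ℚ)
    (fun k : {k // k ∉ J ∧ k ∉ U} => T (Pi.single k.1 (s k.1 k.1))) (by
      intro k
      rw [Ne, hT0]
      intro h
      have h1 := hinj k.1 k.2.1 _ h
      rw [hsE k.1 k.2.1] at h1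
      exact hs₁k k.1 k.2.1 k.2.2 h1)
  let prJ : (∀ i, Q i) →ₗ[ℚ] (∀ i, Q i) :=
    LinearMap.pi fun i => if i ∈ J then LinearMap.proj i else 0
  have hprJ : ∀ v i, prJ v i = if i ∈ J then v i else 0 := by
    intro v i
    rw [LinearMap.pi_apply]
    by_cases h : i ∈ J
    · rw [if_pos h, if_pos h, LinearMap.proj_apply]
    · rw [if_neg h, if_neg h, LinearMap.zero_apply]
  refine ⟨J, U, ((∀ i, Q i) ⧸ W), inferInstance, inferInstance, T,
    fun i => (LinearMap.proj i).comp ((suppOn Q U).subtype.comp g'), s,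
    fun k => if h : k ∈ J then (f₀ ⟨k, h⟩).comp prJ else 0, τ, hJU, ?_, ?_, ?_, ?_, ?_, ?_, ?_,
    ?_, ?_, ?_⟩
  · intro x hx
    rw [hT0]
    exact Submodule.mem_sup_left hx
  · intro i hi q
    rw [hT0]
    exact Submodule.mem_sup_right (hsingle J i q hi)
  · intro i hi q hq
    rw [hT0] at hq
    exact hinj i hi q hq
  · intro i j hj q
    have h1 := LinearMap.congr_fun hg' ⟨_, hsingle U j q hj⟩
    have h2 := congrArg Subtype.val h1
    exact congrFun h2 i
  · intro k hk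
    by_cases h : k ∈ J
    · rw [hsJ k h]
      exact (b (g ⟨k, h⟩)).2.1
    · rw [hsE k h]
      exact hs₁R k h hk
  · intro k hk e he
    rw [hsJ k hk]
    exact (b (g ⟨k, hk⟩)).2.2 e he
  · intro k hk i hi q
    beta_reduce
    rw [dif_pos hk, LinearMap.comp_apply]
    have : prJ (Pi.single i q) = 0 := by
      funext j
      rw [hprJ]
      by_cases h : j ∈ J
      · rw [if_pos h, Pi.single_eq_of_ne (show j ≠ i from fun h' => hi (h' ▸ h)), Pi.zero_apply]
      · rw [if_neg h, Pi.zero_apply]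
    rw [this, map_zero]
  · intro k hk k' hk'
    beta_reduce
    have hpr : prJ (s k') = s k' := by
      funext j
      rw [hprJ]
      by_cases h : j ∈ J
      · rw [if_pos h]
      · rw [if_neg h, hsJ k' hk', (b (g ⟨k', hk'⟩)).2.2 j h]
    rw [dif_pos hk, LinearMap.comp_apply, hpr, hsJ k' hk']
    have h1 := LinearMap.congr_fun (hf₀ ⟨k, hk⟩) (b (g ⟨k', hk'⟩))
    have h2 : f₀ ⟨k, hk⟩ (b (g ⟨k', hk'⟩) : ∀ i, Q i) = b.coord (g ⟨k, hk⟩) (b (g ⟨k', hk'⟩)) := h1
    rw [h2, Module.Basis.coord_apply, Module.Basis.repr_self]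
    by_cases hkk : k = k'
    · subst hkk
      simp
    · rw [if_neg hkk, Finsupp.single_eq_of_ne]
      intro h3
      apply hkk
      have h4 := g.injective h3
      exact congrArg Subtype.val h4
  · intro k hk hkU e he heU hek
    rw [hsE k hk]
    exact hs₁e k hk hkU e he heU hek
  · intro k hk hkU
    exact hτ ⟨k, hk, hkU⟩

end Pool.Agent.H90.FR
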