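import Mathlib
import Pool.Agent.Lib_helper90.FR.Coeff
import Pool.Agent.Lib_helper90.FR.Factor
import Pool.Agent.Lib_helper90.FR.Select
import Pool.Agent.Lib_helper90.FR.Chain
import Pool.Agent.Lib_helper90.FR.Mat

set_option autoImplicit false

namespace Pool.Agent.H90.FR

open AddMonoidAlgebra

universe u v w

/-- Constant coefficients of a crossed map after `γ ↦ exp (τ γ X)`. -/
theorem crossed_c0 {ι : Type} {A : ι → Type u} [∀ i, Group (A i)] {κ : Type v} [Field κ]
    [Algebra ℚ κ] {Γ : Type w} [AddCommGroup Γ] [Module ℚ Γ] {V : Type u} [AddCommGroup V]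
    [Module ℚ V] (τ : Γ →ₗ[ℚ] ℚ) (θ : Monoid.CoprodI A → Γ) (ω : Monoid.CoprodI A → V)
    (hω : ∀ x y, ω (x * y) = ω x + ω y)
    (Ψ : Monoid.CoprodI A → κ[Γ]) (hΨ : ∀ x y, Ψ (x * y) = Ψ x + single (θ x) 1 * Ψ y)
    (f : V →ₗ[ℚ] ℚ)
    (h : ∀ i (a : A i), PowerSeries.constantCoeff (ex (κ := κ) τ (Ψ (Monoid.CoprodI.of a))) =
      algebraMap ℚ κ (f (ω (Monoid.CoprodI.of a)))) (x : Monoid.CoprodI A) :
    PowerSeries.constantCoeff (ex (κ := κ) τ (Ψ x)) = algebraMap ℚ κ (f (ω x)) := by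
  have hω1 : ω 1 = 0 := by
    have := hω 1 1
    simpa using this
  induction x using Monoid.CoprodI.induction_on with
  | one =>
    have h1 := hΨ 1 1
    rw [mul_one] at h1
    have h2 : single (θ 1) (1 : κ) * Ψ 1 = 0 := by
      have h3 : Ψ 1 + 0 = Ψ 1 + single (θ 1) 1 * Ψ 1 := by rw [add_zero]; exact h1
      exact (add_left_cancel h3).symm
    have h4 : ex (κ := κ) τ (single (θ 1) 1 * Ψ 1) = 0 := by rw [h2, map_zero]
    rw [map_mul] at h4
    have h5 := congrArg (PowerSeries.constantCoeff (R := κ)) h4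
    rw [map_mul, ex_coeff_zero, one_mul, map_zero] at h5
    rw [h5, hω1, map_zero, map_zero]
  | of i a => exact h i a
  | mul x y hx hy =>
    rw [hΨ, map_add, map_add, map_mul, map_mul, ex_coeff_zero, one_mul, hx, hy, hω, map_add,
      map_add]

/-- Linear coefficients of a crossed map after `γ ↦ exp (τ γ X)`. -/
theorem crossed_c1 {ι : Type} {A : ι → Type u} [∀ i, Group (A i)] {κ : Type v} [Field κ]
    [Algebra ℚ κ] {Γ : Type w} [AddCommGroup Γ] [Module ℚ Γ] {V : Type u} [AddCommGroup V]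
    [Module ℚ V] (τ : Γ →ₗ[ℚ] ℚ) (θ : Monoid.CoprodI A → Γ) (ω : Monoid.CoprodI A → V)
    (hω : ∀ x y, ω (x * y) = ω x + ω y)
    (Ψ : Monoid.CoprodI A → κ[Γ]) (hΨ : ∀ x y, Ψ (x * y) = Ψ x + single (θ x) 1 * Ψ y)
    (f : V →ₗ[ℚ] ℚ) (h0 : ∀ x, PowerSeries.constantCoeff (ex (κ := κ) τ (Ψ x)) = 0)
    (h : ∀ i (a : A i), PowerSeries.coeff 1 (ex (κ := κ) τ (Ψ (Monoid.CoprodI.of a))) =
      algebraMap ℚ κ (f (ω (Monoid.CoprodI.of a)))) (x : Monoid.CoprodI A) :
    PowerSeries.coeff 1 (ex (κ := κ) τ (Ψ x)) = algebraMap ℚ κ (f (ω x)) := by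
  have hω1 : ω 1 = 0 := by
    have := hω 1 1
    simpa using this
  induction x using Monoid.CoprodI.induction_on with
  | one =>
    have h1 := hΨ 1 1
    rw [mul_one] at h1
    have h2 : single (θ 1) (1 : κ) * Ψ 1 = 0 := by
      have h3 : Ψ 1 + 0 = Ψ 1 + single (θ 1) 1 * Ψ 1 := by rw [add_zero]; exact h1
      exact (add_left_cancel h3).symm
    have h4 : ex (κ := κ) τ (single (θ 1) 1 * Ψ 1) = 0 := by rw [h2, map_zero]
    rw [map_mul] at h4
    have h5 := congrArg (PowerSeries.coeff (R := κ) 1) h4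
    rw [PowerSeries.coeff_one_mul, ex_coeff_zero, h0, mul_zero, map_zero, zero_add, mul_one]
      at h5
    rw [h5, hω1, map_zero, map_zero]
  | of i a => exact h i a
  | mul x y hx hy =>
    rw [hΨ, map_add, map_add, map_mul, PowerSeries.coeff_one_mul, ex_coeff_zero, h0, mul_zero,
      zero_add, mul_one, hx, hy, hω, map_add, map_add]

/-- The crossed map on the free product attached to the `k`-th factor. -/
theorem chain_hyp {ι : Type} [DecidableEq ι] {A : ι → Type u} [∀ i, Group (A i)] {m : ℕ}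
    (r : Fin m → Monoid.CoprodI A) {κ : Type u} [Field κ] {Γ : Type u} [AddCommGroup Γ]
    {Q : ι → Type u} [∀ i, AddCommGroup (Q i)] (te : ∀ i, Q i →+ Γ) (p : ∀ i, Γ →+ Q i)
    (θ : Monoid.CoprodI A →* Multiplicative Γ) (α : ∀ i, A i → Q i)
    (hθ : ∀ i (a : A i), θ (Monoid.CoprodI.of a) = Multiplicative.ofAdd (te i (α i a)))
    (c : ι → Fin m → κ[Γ]) (a : ∀ i, A i)
    (hc : ∀ i, ∀ (M : Type u) [AddCommGroup M] [Module κ M] (act : κ[Γ] →ₐ[κ] Module.End κ M)
      (δ : Monoid.CoprodI A → M),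
      (∀ x y, δ (x * y) = δ x + act (single (Multiplicative.toAdd (θ x)) 1) (δ y)) →
      δ (Monoid.CoprodI.of (a i)) = ∑ l, act (c i l) (δ (r l)))
    (k : ι) (hpk : ∀ q, p k (te k q) = q) (D : A k → Q k → κ)
    (hD : ∀ a b q, D (a * b) q = D a q + D b (q - α k a))
    (π : κ[Γ] →ₐ[κ] κ[Γ]) (hπ : ∀ q, π (single (te k q) 1) = single (te k q) 1) :
    ∃ v : Fin m → (Q k → κ[Γ]),
      (∀ i, i ≠ k → ∑ l, tw κ (te k) (p k) (π (c i l)) (v l) = 0) ∧
      ∑ l, tw κ (te k) (p k) (π (c k l)) (v l) = fun q => single 0 (D (a k) q) := by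
  let act : κ[Γ] →ₐ[κ] Module.End κ (Q k → κ[Γ]) := (tw κ (te k) (p k)).comp π
  let ρ : Monoid.CoprodI A →* Module.End κ (Q k → κ[Γ]) :=
    (act : κ[Γ] →* Module.End κ (Q k → κ[Γ])).comp ((AddMonoidAlgebra.of κ Γ).comp θ)
  have hρ : ∀ x w, ρ x w = act (single (Multiplicative.toAdd (θ x)) 1) w := fun _ _ => rfl
  have hρk : ∀ (b : A k) (w : Q k → κ[Γ]) (q : Q k),
      ρ (Monoid.CoprodI.of b) w q = w (q - α k b) := by
    intro b w q
    rw [hρ, hθ, toAdd_ofAdd]
    change tw κ (te k) (p k) (π (single (te k (α k b)) 1)) w q = _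
    rw [hπ, tw_single, hpk, sub_self]
    exact one_mul _
  obtain ⟨Φ, hΦ, hΦof⟩ := extend (κ := κ) ρ
    (Function.update (β := fun i => A i → (Q k → κ[Γ])) (fun _ _ => 0) k
      (fun b q => single 0 (D b q))) (by
    intro i b b'
    by_cases hik : i = k
    · subst hik
      rw [Function.update_self]
      funext q
      rw [Pi.add_apply, hρk, hD, single_add]
    · rw [Function.update_of_ne hik]
      change (0 : Q k → κ[Γ]) = 0 + ρ _ 0
      rw [map_zero, add_zero])
  refine ⟨fun l => Φ (r l), ?_, ?_⟩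
  · intro i hik
    have h1 := hc i _ act Φ (fun x y => by rw [hΦ, hρ])
    rw [hΦof, Function.update_of_ne hik] at h1
    exact h1.symm
  · have h1 := hc k _ act Φ (fun x y => by rw [hΦ, hρ])
    rw [hΦof, Function.update_self] at h1
    exact h1.symm

/-- The crossed map attached to a factor outside `U`. -/
theorem psi_hyp {ι : Type} [DecidableEq ι] {A : ι → Type u} [∀ i, Group (A i)]
    {κ : Type u} [Field κ] [Algebra ℚ κ] {Γ : Type u} [AddCommGroup Γ] [Module ℚ Γ]
    {Q : ι → Type u} [∀ i, AddCommGroup (Q i)] [∀ i, Module ℚ (Q i)]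
    (α : ∀ i, A i → Q i) (hα : ∀ i a b, α i (a * b) = α i a + α i b)
    (ω : Monoid.CoprodI A → (∀ i, Q i)) (hω : ∀ x y, ω (x * y) = ω x + ω y)
    (hωof : ∀ i (b : A i), ω (Monoid.CoprodI.of b) = Pi.single i (α i b))
    (T : (∀ i, Q i) →ₗ[ℚ] Γ) (τ : Γ →ₗ[ℚ] ℚ)
    (θ : Monoid.CoprodI A →* Multiplicative Γ)
    (hθ : ∀ x, Multiplicative.toAdd (θ x) = T (ω x))
    (J : Finset ι) (hTJ : ∀ i ∈ J, ∀ q, T (Pi.single i q) = 0) (k : ι)
    (f : (∀ i, Q i) →ₗ[ℚ] ℚ) (hf : k ∈ J → ∀ i ∉ J, ∀ q, f (Pi.single i q) = 0) :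
    ∃ Ψ : Monoid.CoprodI A → κ[Γ],
      (∀ x y, Ψ (x * y) = Ψ x + single (Multiplicative.toAdd (θ x)) 1 * Ψ y) ∧
      (∀ i, i ≠ k → ∀ b : A i, α i b = 0 → Ψ (Monoid.CoprodI.of b) = 0) ∧
      (k ∈ J → ∀ x, PowerSeries.constantCoeff (ex (κ := κ) τ (Ψ x)) =
        algebraMap ℚ κ (f (ω x))) ∧
      (k ∉ J → ∀ x, PowerSeries.constantCoeff (ex (κ := κ) τ (Ψ x)) = 0) ∧
      (k ∉ J → ∀ x, PowerSeries.coeff 1 (ex (κ := κ) τ (Ψ x)) =
        algebraMap ℚ κ (τ (T (Pi.single k (ω x k))))) := by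
  let ρ : Monoid.CoprodI A →* Module.End κ κ[Γ] :=
    ((Algebra.lmul κ κ[Γ] : κ[Γ] →ₐ[κ] Module.End κ κ[Γ]) : κ[Γ] →* Module.End κ κ[Γ]).comp
      ((AddMonoidAlgebra.of κ Γ).comp θ)
  have hρ : ∀ x w, ρ x w = single (Multiplicative.toAdd (θ x)) 1 * w := fun _ _ => rfl
  by_cases hk : k ∈ J
  · obtain ⟨Ψ, hΨ, hΨof⟩ := extend (κ := κ) ρ
      (fun i b => single 0 (algebraMap ℚ κ (f (Pi.single i (α i b))))) (by
        intro i b b'
        rw [hρ, hθ, hωof]
        by_cases hi : i ∈ J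
        · rw [hTJ i hi, single_mul_single, zero_add, one_mul, hα, ← single_add, ← map_add,
            Pi.single_add, map_add f]
        · rw [hf hk i hi, hf hk i hi, hf hk i hi, map_zero, single_zero, mul_zero, add_zero])
    refine ⟨Ψ, fun x y => by rw [hΨ, hρ], ?_, ?_, fun h => absurd hk h, fun h => absurd hk h⟩
    · intro i _ b hb
      rw [hΨof, hb, Pi.single_zero, map_zero, map_zero, single_zero]
    · intro _ x
      refine crossed_c0 τ (fun x => Multiplicative.toAdd (θ x)) ω hω Ψ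
        (fun x y => by rw [hΨ, hρ]) f ?_ x
      intro i b
      rw [hΨof, hωof]
      have h1 : (single (0 : Γ) (algebraMap ℚ κ (f (Pi.single i (α i b)))) : κ[Γ]) =
          algebraMap ℚ κ (f (Pi.single i (α i b))) • (1 : κ[Γ]) := by
        rw [one_def, smul_single, smul_eq_mul, mul_one]
      rw [h1, map_smul, map_one, PowerSeries.smul_eq_C_mul, mul_one,
        PowerSeries.constantCoeff_C]
  · obtain ⟨Ψ, hΨ, hΨof⟩ := extend (κ := κ) ρ
      (Function.update (β := fun i => A i → κ[Γ]) (fun _ _ => 0) k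
        (fun b => single (T (Pi.single k (α k b))) 1 - 1)) (by
        intro i b b'
        by_cases hik : i = k
        · subst hik
          rw [Function.update_self, hρ, hθ, hωof, hα, Pi.single_add, map_add, mul_sub, mul_one,
            single_mul_single, one_mul]
          abel
        · rw [Function.update_of_ne hik, map_zero, add_zero])
    have h0 : ∀ x, PowerSeries.constantCoeff (ex (κ := κ) τ (Ψ x)) = 0 := by
      intro x
      have h1 := crossed_c0 τ (fun x => Multiplicative.toAdd (θ x)) ω hω Ψ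
        (fun x y => by rw [hΨ, hρ]) 0 (by
          intro i b
          rw [hΨof, LinearMap.zero_apply, map_zero]
          by_cases hik : i = k
          · subst hik
            rw [Function.update_self, map_sub, map_sub, ex_coeff_zero, map_one, map_one,
              sub_self]
          · rw [Function.update_of_ne hik, map_zero, map_zero]) x
      rw [h1, LinearMap.zero_apply, map_zero]
    refine ⟨Ψ, fun x y => by rw [hΨ, hρ], ?_, fun h => absurd h hk, fun _ => h0, ?_⟩
    · intro i hi b _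
      rw [hΨof, Function.update_of_ne hi]
    · intro _ x
      let f' : (∀ i, Q i) →ₗ[ℚ] ℚ := τ.comp (T.comp ((LinearMap.single ℚ Q k).comp
        (LinearMap.proj k)))
      refine crossed_c1 τ (fun x => Multiplicative.toAdd (θ x)) ω hω Ψ
        (fun x y => by rw [hΨ, hρ]) f' h0 ?_ x
      intro i b
      rw [hΨof, hωof]
      change _ = algebraMap ℚ κ (τ (T (Pi.single k ((Pi.single i (α i b) : ∀ i, Q i) k))))
      by_cases hik : i = k
      · subst hik
        rw [Function.update_self, map_sub, map_sub, ex_coeff_one, map_one,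
          PowerSeries.coeff_one, if_neg one_ne_zero, sub_zero, Pi.single_eq_same]
      · rw [Function.update_of_ne hik, map_zero, map_zero,
          Pi.single_eq_of_ne (Ne.symm hik), Pi.single_zero, map_zero, map_zero, map_zero]

end Pool.Agent.H90.FR
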