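import Mathlib
import Pool.Agent.Lib_helper90.FR.Chain

set_option autoImplicit false

namespace Pool.Agent.H90.FR

open AddMonoidAlgebra

universe u v w

theorem tw_eigen2 {κ : Type v} [Field κ] {Γ : Type w} [AddCommGroup Γ] {Q : Type u}
    [AddCommGroup Q] (te : Q →+ Γ) (p : Γ →+ Q) (χ : Multiplicative Q →* κ) (g : κ[Γ])
    (Δ : κ[Γ]) :
    tw κ te p Δ (fun q => g * single 0 (χ (Multiplicative.ofAdd (-q)))) 0 =
      sp te p χ Δ * g := by
  induction Δ using AddMonoidAlgebra.induction_linear with
  | zero =>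
    rw [map_zero, map_zero, zero_mul]
    rfl
  | add a b ha hb =>
    rw [map_add, map_add, LinearMap.add_apply, Pi.add_apply, ha, hb, add_mul]
  | single γ a =>
    have h : (single γ a : κ[Γ]) = a • single γ 1 := by
      rw [smul_single, smul_eq_mul, mul_one]
    rw [h, map_smul, map_smul, LinearMap.smul_apply, Pi.smul_apply, tw_single, sp_single,
      smul_mul_assoc]
    congr 1
    rw [mul_comm g, ← mul_assoc, single_mul_single, zero_sub, neg_neg, one_mul, add_zero]

/-- The chain argument along a flag of index sets. -/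
theorem chain2 {ι : Type} [DecidableEq ι] {κ : Type v} [Field κ] {Γ : Type w} [AddCommGroup Γ]
    [NoZeroDivisors κ[Γ]]
    (Q : ι → Type u) [∀ i, AddCommGroup (Q i)] (U : Finset ι) (te : ∀ i, Q i →+ Γ)
    (p : ∀ i, Γ →+ Q i) (hpi : ∀ i ∈ U, ∀ j ∈ U, i ≠ j → ∀ q, p i (te j q) = 0)
    {m : ℕ} (Rel : Finset ι → (Fin m → κ[Γ]) → Prop)
    (hRel : ∀ X Y c, X ⊆ Y → Rel X c → Rel Y c) (t : ℕ)
    (hstep : ∀ X ⊆ U, t < X.card → ∃ k ∈ X, ∃ (χ : Multiplicative (Q k) →* κ)
      (c : Fin m → κ[Γ]) (g : κ[Γ]), g ≠ 0 ∧ Rel X c ∧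
      ∀ π : κ[Γ] →ₐ[κ] κ[Γ], (∀ i ∈ X, ∀ q, π (single (te i q) 1) = single (te i q) 1) →
        ∃ v : Fin m → (Q k → κ[Γ]),
          (∀ c', Rel (X.erase k) c' → ∑ l, tw κ (te k) (p k) (π (c' l)) (v l) = 0) ∧
          ∑ l, tw κ (te k) (p k) (π (c l)) (v l) =
            fun q => g * single 0 (χ (Multiplicative.ofAdd (-q)))) :
    ∀ (j : ℕ) (X : Finset ι), X ⊆ U → X.card = t + j →
      ∃ c : Fin j → Fin m → κ[Γ], (∀ i, Rel X (c i)) ∧
        ∀ π : κ[Γ] →ₐ[κ] κ[Γ], (∀ i ∈ X, ∀ q, π (single (te i q) 1) = single (te i q) 1) →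
          ∃ g : Fin j → Fin m, π (Matrix.det (Matrix.of fun i i' => c i (g i'))) ≠ 0 := by
  intro j
  induction j with
  | zero =>
    intro X _ _
    refine ⟨fun i => i.elim0, fun i => i.elim0, fun π _ => ⟨fun i => i.elim0, ?_⟩⟩
    rw [Matrix.det_isEmpty, map_one]
    exact one_ne_zero
  | succ j ih =>
    intro X hXU hX
    obtain ⟨k, hkX, χ, cx, g₀, hg₀, hcx, hπstep⟩ := hstep X hXU (by omega)
    obtain ⟨c, hc, hdet⟩ := ih (X.erase k) ((Finset.erase_subset _ _).trans hXU)
      (by rw [Finset.card_erase_of_mem hkX, hX]; omega)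
    let C : Fin (j + 1) → Fin m → κ[Γ] := Fin.snoc (α := fun _ => Fin m → κ[Γ]) c cx
    have hCcast : ∀ i : Fin j, C i.castSucc = c i := fun i =>
      Fin.snoc_castSucc (α := fun _ => Fin m → κ[Γ]) cx c i
    have hClast : C (Fin.last j) = cx := Fin.snoc_last (α := fun _ => Fin m → κ[Γ]) cx c
    refine ⟨C, ?_, ?_⟩
    · intro i
      refine Fin.lastCases ?_ (fun i => ?_) i
      · rw [hClast]
        exact hcx
      · rw [hCcast]
        exact hRel _ _ _ (Finset.erase_subset _ _) (hc i)
    · intro π hπ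
      obtain ⟨g, hg⟩ := hdet ((sp (te k) (p k) χ).comp π) (by
        intro i hi q
        rw [AlgHom.comp_apply, hπ i (Finset.mem_of_mem_erase hi), sp_single,
          hpi k (hXU hkX) i (hXU (Finset.mem_of_mem_erase hi))
            (Finset.ne_of_mem_erase hi).symm]
        rw [map_zero, sub_zero, ofAdd_zero, map_one])
      by_contra hcon
      push Not at hcon
      obtain ⟨v, hv0, hv1⟩ := hπstep π hπ
      let D : Fin (j + 1) → κ[Γ] := fun i => (-1) ^ ((i : ℕ) + (Fin.last j : ℕ)) *
        Matrix.det (Matrix.of fun (a b : Fin j) => C (i.succAbove a) (g b))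
      have hD : ∀ l, π (∑ i, D i * C i l) = 0 := by
        intro l
        rw [← hcon (Fin.snoc g l)]
        congr 1
        rw [Matrix.det_succ_column _ (Fin.last j)]
        refine Finset.sum_congr rfl fun i _ => ?_
        have : (Matrix.submatrix (Matrix.of fun (i i' : Fin (j + 1)) => C i
            ((Fin.snoc g l : Fin (j + 1) → Fin m) i')) i.succAbove (Fin.last j).succAbove) =
            (Matrix.of fun (a b : Fin j) => C (i.succAbove a) (g b)) := by
          ext1 a b
          change C (i.succAbove a) ((Fin.snoc g l : Fin (j + 1) → Fin m)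
            ((Fin.last j).succAbove b)) = _
          rw [Fin.succAbove_last, Fin.snoc_castSucc]
          rfl
        rw [this, Matrix.of_apply, Fin.snoc_last]
        change (_ * _) * _ = _ * _ * _
        ring
      have h1 : ∑ l, tw κ (te k) (p k) (π (∑ i, D i * C i l)) (v l) = 0 := by
        refine Finset.sum_eq_zero fun l _ => ?_
        rw [hD, map_zero]
        rfl
      have h2 : ∑ l, tw κ (te k) (p k) (π (∑ i, D i * C i l)) (v l) =
          ∑ i, tw κ (te k) (p k) (π (D i))
            (∑ l, tw κ (te k) (p k) (π (C i l)) (v l)) := by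
        have h3 : ∀ l, tw κ (te k) (p k) (π (∑ i, D i * C i l)) (v l) =
            ∑ i, tw κ (te k) (p k) (π (D i)) (tw κ (te k) (p k) (π (C i l)) (v l)) := by
          intro l
          rw [map_sum, map_sum, LinearMap.sum_apply]
          refine Finset.sum_congr rfl fun i _ => ?_
          rw [map_mul, map_mul, Module.End.mul_apply]
        simp only [h3]
        rw [Finset.sum_comm]
        refine Finset.sum_congr rfl fun i _ => ?_
        rw [map_sum]
      rw [h1, Finset.sum_eq_single (Fin.last j)] at h2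
      · rw [hClast, hv1] at h2
        have h4 := congrFun h2 0
        rw [tw_eigen2] at h4
        apply hg
        rw [AlgHom.comp_apply]
        have h5 : D (Fin.last j) =
            Matrix.det (Matrix.of fun (i i' : Fin j) => c i (g i')) := by
          change (-1) ^ ((Fin.last j : ℕ) + (Fin.last j : ℕ)) * _ = _
          rw [Even.neg_one_pow ⟨_, rfl⟩, one_mul]
          congr 1
          ext1 a b
          rw [Matrix.of_apply, Matrix.of_apply, Fin.succAbove_last, hCcast]
        rw [← h5]
        exact (mul_eq_zero.1 h4.symm).resolve_right hg₀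
      · intro i _ hi
        obtain ⟨i', rfl⟩ := Fin.exists_castSucc_eq.2 hi
        rw [hCcast, hv0 _ (hc i'), map_zero]
      · intro h
        exact absurd (Finset.mem_univ _) h

end Pool.Agent.H90.FR
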