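import Mathlib
import Pool.Agent.Lib_helper90.FR.Coeff
import Pool.Agent.Lib_helper90.FR.Factor

set_option autoImplicit false

namespace Pool.Agent.H90.FR

open AddMonoidAlgebra

universe u v w

/-- A homomorphism to a rational vector space kills the rational derived subgroup. -/
theorem ratDer_le {G : Type u} [Group G] {Γ : Type w} [AddCommGroup Γ] [Module ℚ Γ]
    (f : G →* Multiplicative Γ) (x : G) (hx : x ∈ ratDer G) :
    Multiplicative.toAdd (f x) = 0 := by
  unfold ratDer at hx
  rw [Subgroup.mem_comap, CommGroup.mem_torsion] at hx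
  have h1 := MonoidHom.isOfFinOrder (Abelianization.lift f) hx
  rw [Abelianization.lift_apply_of, isOfFinOrder_iff_pow_eq_one] at h1
  obtain ⟨n, hn, h2⟩ := h1
  have h3 : n • Multiplicative.toAdd (f x) = 0 := by
    have h4 : Multiplicative.toAdd ((f x) ^ n) = 0 := by rw [h2]; rfl
    rw [toAdd_pow] at h4
    exact h4
  rw [← Nat.cast_smul_eq_nsmul ℚ, smul_eq_zero] at h3
  rcases h3 with h3 | h3
  · exact absurd h3 (by exact_mod_cast hn.ne')
  · exact h3

/-- An element of the second rational derived subgroup of a quotient has a power which is a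
product of an element of the kernel and of commutators of elements which lie in the rational
derived subgroup of the quotient. -/
theorem ratDer2_quot {F : Type u} [Group F] (N : Subgroup F) [N.Normal] (x : F)
    (hx : QuotientGroup.mk' N x ∈ ratDer2 (F ⧸ N)) :
    QuotientGroup.mk' N x ∈ ratDer (F ⧸ N) ∧ ∃ k : ℕ, 0 < k ∧
      ∃ w ∈ ⁅(ratDer (F ⧸ N)).comap (QuotientGroup.mk' N),
        (ratDer (F ⧸ N)).comap (QuotientGroup.mk' N)⁆, ∃ y ∈ N, x ^ k = w * y := by
  rw [mem_ratDer2] at hx
  obtain ⟨h1, h2⟩ := hx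
  refine ⟨h1, ?_⟩
  unfold ratDer at h2
  rw [Subgroup.mem_comap, CommGroup.mem_torsion, isOfFinOrder_iff_pow_eq_one] at h2
  obtain ⟨k, hk, h3⟩ := h2
  rw [← map_pow, ← MonoidHom.mem_ker, Abelianization.ker_of] at h3
  have h4 : (QuotientGroup.mk' N x) ^ k ∈ ⁅ratDer (F ⧸ N), ratDer (F ⧸ N)⁆ := by
    rw [← Subgroup.map_subtype_commutator]
    exact ⟨_, h3, rfl⟩
  have h5 : ⁅ratDer (F ⧸ N), ratDer (F ⧸ N)⁆ =
      Subgroup.map (QuotientGroup.mk' N) ⁅(ratDer (F ⧸ N)).comap (QuotientGroup.mk' N),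
        (ratDer (F ⧸ N)).comap (QuotientGroup.mk' N)⁆ := by
    rw [Subgroup.map_commutator, Subgroup.map_comap_eq_self_of_surjective
      (QuotientGroup.mk'_surjective N)]
  rw [h5] at h4
  obtain ⟨w, hw, hwx⟩ := h4
  refine ⟨k, hk, w, hw, w⁻¹ * x ^ k, ?_, by group⟩
  have h6 : QuotientGroup.mk' N (w⁻¹ * x ^ k) = 1 := by
    rw [map_mul, map_inv, map_pow, hwx, inv_mul_cancel]
  rw [← MonoidHom.mem_ker, QuotientGroup.ker_mk'] at h6
  exact h6

/-- Coefficients for the elements of the second rational derived subgroup of the quotient. -/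
theorem coeffs2 {F : Type u} [Group F] {m : ℕ} (r : Fin m → F) {κ : Type v} [Field κ]
    [Algebra ℚ κ] {Γ : Type w} [AddCommGroup Γ] [Module ℚ Γ] (θ : F →* Multiplicative Γ)
    (hr : ∀ l, Multiplicative.toAdd (θ (r l)) = 0) (x : F)
    (hx : QuotientGroup.mk' (Subgroup.normalClosure (Set.range r)) x ∈
      ratDer2 (F ⧸ Subgroup.normalClosure (Set.range r))) :
    Multiplicative.toAdd (θ x) = 0 ∧ ∃ c : Fin m → κ[Γ], ∀ (M : Type (max v w))
      [AddCommGroup M] [Module κ M] (act : κ[Γ] →ₐ[κ] Module.End κ M) (δ : F → M),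
      (∀ x y, δ (x * y) = δ x + act (single (Multiplicative.toAdd (θ x)) 1) (δ y)) →
      δ x = ∑ l, act (c l) (δ (r l)) := by
  obtain ⟨h1, k, hk, w, hw, y, hy, hxk⟩ := ratDer2_quot _ x hx
  set N := Subgroup.normalClosure (Set.range r) with hN
  have hNθ : N ≤ θ.ker := by
    rw [hN]
    apply Subgroup.normalClosure_le_normal
    rintro _ ⟨l, rfl⟩
    exact Multiplicative.toAdd.injective (hr l)
  let θ' : F ⧸ N →* Multiplicative Γ := QuotientGroup.lift N θ hNθ
  have hP : ∀ u : F, QuotientGroup.mk' N u ∈ ratDer (F ⧸ N) →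
      Multiplicative.toAdd (θ u) = 0 := fun u hu => ratDer_le θ' _ hu
  have hθx : Multiplicative.toAdd (θ x) = 0 := hP x h1
  refine ⟨hθx, ?_⟩
  obtain ⟨-, c, hc⟩ := coeffs r (κ := κ) (fun x => Multiplicative.toAdd (θ x))
    (fun x y => by rw [map_mul, toAdd_mul]) hr y hy
  refine ⟨fun l => (k : κ)⁻¹ • c l, ?_⟩
  intro M _ _ act δ hδ
  have hone : (single (0 : Γ) (1 : κ) : κ[Γ]) = 1 := rfl
  have hadd : ∀ u v, Multiplicative.toAdd (θ u) = 0 → δ (u * v) = δ u + δ v := by
    intro u v hu
    rw [hδ, hu, hone, map_one, Module.End.one_apply]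
  have hδ1 : δ 1 = 0 := by
    have h2 := hadd 1 1 (by rw [map_one, toAdd_one])
    rw [mul_one] at h2
    exact left_eq_add.1 h2
  -- the restriction to the preimage of the rational derived subgroup
  let P : Subgroup F := (ratDer (F ⧸ N)).comap (QuotientGroup.mk' N)
  let δP : P →* Multiplicative M :=
    { toFun := fun u => Multiplicative.ofAdd (δ u)
      map_one' := by
        change Multiplicative.ofAdd (δ 1) = 1
        rw [hδ1]
        rfl
      map_mul' := by
        intro u v
        change Multiplicative.ofAdd (δ (u * v)) = _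
        rw [hadd u v (hP u u.2)]
        rfl }
  have hδw : δ w = 0 := by
    have h2 : w ∈ Subgroup.map P.subtype (commutator P) := by
      rw [Subgroup.map_subtype_commutator]
      exact hw
    obtain ⟨w', hw', rfl⟩ := h2
    have h3 := Abelianization.commutator_subset_ker δP hw'
    rw [MonoidHom.mem_ker] at h3
    exact Multiplicative.ofAdd.injective h3
  have hθw : Multiplicative.toAdd (θ w) = 0 := by
    apply hP
    have h2 : w ∈ P := Subgroup.commutator_le_self P hw
    exact h2
  have hpow : ∀ j : ℕ, δ (x ^ j) = (j : κ) • δ x := by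
    intro j
    induction j with
    | zero => rw [pow_zero, hδ1, Nat.cast_zero, zero_smul]
    | succ j ih =>
      rw [pow_succ', hadd _ _ hθx, ih, Nat.cast_succ, add_smul, one_smul, add_comm]
  have h4 := hpow k
  rw [hxk, hadd _ _ hθw, hδw, zero_add, hc M act δ hδ] at h4
  have hk0 : (k : κ) ≠ 0 := by
    have : CharZero κ := algebraRat.charZero κ
    exact Nat.cast_ne_zero.2 hk.ne'
  have h5 : δ x = (k : κ)⁻¹ • ∑ l, act (c l) (δ (r l)) := by
    rw [h4, smul_smul, inv_mul_cancel₀ hk0, one_smul]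
  rw [h5, Finset.smul_sum]
  refine Finset.sum_congr rfl fun l _ => ?_
  rw [map_smul, LinearMap.smul_apply]

end Pool.Agent.H90.FR
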