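import Mathlib

set_option autoImplicit false

namespace Pool.Agent.H90.FR

universe u

/-- Translation of functions. -/
def trl {Q : Type u} [AddCommGroup Q] (q₀ : Q) : (Q → ℚ) →ₗ[ℚ] (Q → ℚ) where
  toFun y q := y (q - q₀)
  map_add' _ _ := rfl
  map_smul' _ _ := rfl

/-- The action of `v` on finitely supported functions `(∀ i, Q i) →₀ (Q e → ℚ)`: the support is
shifted by `v` with its `e`-th coordinate set to `0`, the values are translated by `v e`. -/
noncomputable def shAct {ι : Type} [DecidableEq ι] {Q : ι → Type u} [∀ i, AddCommGroup (Q i)]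
    (e : ι) (v : ∀ i, Q i) :
    ((∀ i, Q i) →₀ (Q e → ℚ)) →ₗ[ℚ] ((∀ i, Q i) →₀ (Q e → ℚ)) :=
  Finsupp.lsum ℚ fun u => (Finsupp.lsingle (u + Function.update v e 0)).comp (trl (v e))

theorem shAct_single {ι : Type} [DecidableEq ι] {Q : ι → Type u} [∀ i, AddCommGroup (Q i)]
    (e : ι) (v u : ∀ i, Q i) (y : Q e → ℚ) :
    shAct e v (Finsupp.single u y) =
      Finsupp.single (u + Function.update v e 0) (fun q => y (q - v e)) := by
  unfold shAct
  rw [Finsupp.lsum_single]
  rfl

end Pool.Agent.H90.FR
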