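import Mathlib
import Pool.Agent.Lib_helper90.FR.Sh
import Pool.Agent.Lib_helper90.FR.Chain2

set_option autoImplicit false

namespace Pool.Agent.H90.FR

open AddMonoidAlgebra

universe u v w

section

variable {ι : Type} [DecidableEq ι] {κ : Type u} [Field κ] {Γ : Type u} [AddCommGroup Γ]
  {Q : ι → Type u} [∀ i, AddCommGroup (Q i)]

theorem fix_sum (X : Finset ι) (te : ∀ i, Q i →+ Γ) (π : κ[Γ] →ₐ[κ] κ[Γ])
    (hπ : ∀ i ∈ X, ∀ q, π (single (te i q) 1) = single (te i q) 1) (v : ∀ i : X, Q i) :
    π (single (∑ i : X, te i (v i)) 1) = single (∑ i : X, te i (v i)) 1 := by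
  have key : ∀ s : Finset X, π (single (∑ i ∈ s, te i (v i)) 1) =
      single (∑ i ∈ s, te i (v i)) 1 := by
    intro s
    induction s using Finset.induction_on with
    | empty =>
      rw [Finset.sum_empty]
      exact map_one π
    | insert a s ha ih =>
      rw [Finset.sum_insert ha]
      have h1 : (single (te a (v a) + ∑ i ∈ s, te i (v i)) (1 : κ) : κ[Γ]) =
          single (te a (v a)) 1 * single (∑ i ∈ s, te i (v i)) 1 := by
        rw [single_mul_single, one_mul]
      rw [h1, map_mul, hπ a a.2, ih]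
  exact key Finset.univ

/-- The evaluation of a finitely supported function. -/
noncomputable def ev (X : Finset ι) (te : ∀ i, Q i →+ Γ) (e : X) [Algebra ℚ κ]
    (ψ : (Q e → ℚ) →ₗ[ℚ] κ) (q : Q e) :
    ((∀ i : X, Q i) →₀ (Q e → ℚ)) →+ κ[Γ] :=
  Finsupp.liftAddHom fun u =>
    { toFun := fun y => single (∑ i : X, te i (u i)) (ψ (fun t => y (t + q)))
      map_zero' := by
        have : (fun t => (0 : Q e → ℚ) (t + q)) = 0 := rfl
        rw [this, map_zero, single_zero]
      map_add' := by
        intro y y'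
        have : (fun t => (y + y') (t + q)) = (fun t => y (t + q)) + fun t => y' (t + q) := rfl
        rw [this, map_add, single_add] }

theorem ev_single (X : Finset ι) (te : ∀ i, Q i →+ Γ) (e : X) [Algebra ℚ κ]
    (ψ : (Q e → ℚ) →ₗ[ℚ] κ) (q : Q e) (u : ∀ i : X, Q i) (y : Q e → ℚ) :
    ev X te e ψ q (Finsupp.single u y) =
      single (∑ i : X, te i (u i)) (ψ (fun t => y (t + q))) := by
  unfold ev
  rw [Finsupp.liftAddHom_apply_single]
  rfl

theorem ev_shAct (X : Finset ι) (te : ∀ i, Q i →+ Γ) (e : X) [Algebra ℚ κ]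
    (ψ : (Q e → ℚ) →ₗ[ℚ] κ) (q : Q e) (v : ∀ i : X, Q i)
    (ξ : (∀ i : X, Q i) →₀ (Q e → ℚ)) :
    ev X te e ψ q (shAct (Q := fun i : X => Q i) e v ξ) =
      single (∑ i : X, te i ((Function.update v e 0 : ∀ i : X, Q i) i)) 1 *
        ev X te e ψ (q - v e) ξ := by
  induction ξ using Finsupp.induction_linear with
  | zero => rw [map_zero, map_zero, map_zero, mul_zero]
  | add ξ ξ' h h' => rw [map_add, map_add, map_add, h, h', mul_add]
  | single u y =>
    rw [shAct_single, ev_single, ev_single, single_mul_single, one_mul]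
    congr 1
    · rw [← Finset.sum_add_distrib]
      refine Finset.sum_congr rfl fun i _ => ?_
      rw [Pi.add_apply, map_add, add_comm]
    · congr 1
      funext t
      congr 1
      abel

end

/-- The crossed map attached to a factor, computed on the free product of the factors in `X`. -/
theorem comparison {ι : Type} [DecidableEq ι] {A : ι → Type u} [∀ i, Group (A i)]
    {κ : Type u} [Field κ] [Algebra ℚ κ] {Γ : Type u} [AddCommGroup Γ]
    {Q : ι → Type u} [∀ i, AddCommGroup (Q i)] (α : ∀ i, A i → Q i)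
    (X : Finset ι) (te : ∀ i, Q i →+ Γ) (e : X) (ψ : (Q e → ℚ) →ₗ[ℚ] κ)
    (p : Γ →+ Q e) (hp : ∀ v : ∀ i : X, Q i, p (∑ i : X, te i (v i)) = v e)
    (θ : Monoid.CoprodI A →* Multiplicative Γ)
    (hθ : ∀ i (a : A i), θ (Monoid.CoprodI.of a) = Multiplicative.ofAdd (te i (α i a)))
    (ω : Monoid.CoprodI (fun i : X => A i) → (∀ i : X, Q i))
    (hω : ∀ x y, ω (x * y) = ω x + ω y)
    (hωof : ∀ (i : X) (b : A i), ω (Monoid.CoprodI.of (M := fun i : X => A i) (i := i) b) =
      Pi.single i (α i b))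
    (d : A e → Q e → ℚ)
    (Φ : Monoid.CoprodI (fun i : X => A i) → ((∀ i : X, Q i) →₀ (Q e → ℚ)))
    (hΦ : ∀ x y, Φ (x * y) = Φ x + shAct (Q := fun i : X => Q i) e (ω x) (Φ y))
    (hΦe : ∀ a : A e, Φ (Monoid.CoprodI.of (M := fun i : X => A i) (i := e) a) =
      Finsupp.single 0 (d a))
    (hΦi : ∀ i : X, i ≠ e → ∀ a : A i,
      Φ (Monoid.CoprodI.of (M := fun i : X => A i) (i := i) a) = 0)
    (π : κ[Γ] →ₐ[κ] κ[Γ])
    (hπ : ∀ i ∈ X, ∀ q, π (single (te i q) 1) = single (te i q) 1)
    (Φ' : Monoid.CoprodI A → (Q e → κ[Γ]))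
    (hΦ' : ∀ x y, Φ' (x * y) = Φ' x +
      tw κ (te e) p (π (single (Multiplicative.toAdd (θ x)) 1)) (Φ' y))
    (hΦe' : ∀ a : A e, Φ' (Monoid.CoprodI.of a) = fun q => single 0 (ψ fun t => d a (t + q)))
    (hΦi' : ∀ i ∈ X, i ≠ e → ∀ a : A i, Φ' (Monoid.CoprodI.of a) = 0)
    (z : Monoid.CoprodI (fun i : X => A i)) (q : Q e) :
    Φ' (Monoid.CoprodI.lift (M := fun i : X => A i)
      (fun i => Monoid.CoprodI.of (i := (i : ι))) z) q = ev X te e ψ q (Φ z) := by
  set J : Monoid.CoprodI (fun i : X => A i) →* Monoid.CoprodI A :=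
    Monoid.CoprodI.lift (M := fun i : X => A i) (fun i => Monoid.CoprodI.of (i := (i : ι)))
    with hJ
  have hJof : ∀ (i : X) (a : A i), J (Monoid.CoprodI.of (M := fun i : X => A i) (i := i) a) =
      Monoid.CoprodI.of (i := (i : ι)) a := fun i a => Monoid.CoprodI.lift_of _ _
  have hω1 : ω 1 = 0 := by
    have := hω 1 1
    simpa using this
  have hθJ : ∀ x, Multiplicative.toAdd (θ (J x)) = ∑ i : X, te i (ω x i) := by
    intro x
    induction x using Monoid.CoprodI.induction_on with
    | one =>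
      rw [map_one, map_one, hω1, toAdd_one]
      simp
    | of i a =>
      rw [hJof, hθ, hωof, toAdd_ofAdd, Finset.sum_eq_single i]
      · rw [Pi.single_eq_same]
      · intro j _ hj
        rw [Pi.single_eq_of_ne hj, map_zero]
      · intro h
        exact absurd (Finset.mem_univ _) h
    | mul x y hx hy =>
      rw [map_mul, map_mul, toAdd_mul, hx, hy, hω, ← Finset.sum_add_distrib]
      refine Finset.sum_congr rfl fun i _ => ?_
      rw [Pi.add_apply, map_add]
  have hΦ1 : Φ 1 = 0 := by
    have h1 := hΦ 1 1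
    rw [mul_one, hω1] at h1
    have h2 : shAct (Q := fun i : X => Q i) e (0 : ∀ i : X, Q i) (Φ 1) = Φ 1 := by
      induction Φ 1 using Finsupp.induction_linear with
      | zero => rw [map_zero]
      | add ξ ξ' h h' => rw [map_add, h, h']
      | single u y =>
        rw [shAct_single]
        congr 1
        · have h3 : Function.update (0 : ∀ i : X, Q i) e 0 = 0 := Function.update_eq_self e 0
          rw [h3, add_zero]
        · funext t
          rw [Pi.zero_apply, sub_zero]
    rw [h2] at h1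
    exact left_eq_add.1 h1
  have hΦ1' : Φ' 1 = 0 := by
    have h1 := hΦ' 1 1
    rw [mul_one, map_one, toAdd_one] at h1
    have h2 : (single (0 : Γ) (1 : κ) : κ[Γ]) = 1 := rfl
    rw [h2, map_one, map_one, Module.End.one_apply] at h1
    exact left_eq_add.1 h1
  induction z using Monoid.CoprodI.induction_on generalizing q with
  | one => rw [map_one, hΦ1, hΦ1', map_zero, Pi.zero_apply]
  | of i a =>
    rw [hJof]
    by_cases hi : i = e
    · subst hi
      rw [hΦe, hΦe', ev_single]
      congr 1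
      simp
    · rw [hΦi i hi, hΦi' i i.2 (fun h => hi (Subtype.ext h)), map_zero, Pi.zero_apply]
  | mul x y hx hy =>
    rw [map_mul, hΦ', hΦ, map_add, Pi.add_apply, hx, ev_shAct, hθJ, fix_sum X te π hπ,
      tw_single, hp, hy]
    congr 3
    have h1 : ∑ i : X, te i (ω x i) = ∑ i : X, te i ((Function.update (ω x) e 0 : ∀ i : X, Q i) i)
        + te e (ω x e) := by
      rw [← Finset.add_sum_erase Finset.univ (fun i : X => te i (ω x i)) (Finset.mem_univ e),
        ← Finset.add_sum_erase Finset.univ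
          (fun i : X => te i ((Function.update (ω x) e 0 : ∀ i : X, Q i) i))
          (Finset.mem_univ e)]
      rw [Function.update_self, map_zero, zero_add, add_comm]
      congr 1
      refine Finset.sum_congr rfl fun i hi => ?_
      rw [Function.update_of_ne (Finset.ne_of_mem_erase hi)]
    rw [h1, add_sub_cancel_right]

end Pool.Agent.H90.FR
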