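import Mathlib
import Pool.Agent.Lib_helper90.FR.Sh

set_option autoImplicit false

namespace Pool.Agent.H90.FR

universe u v w

/-- Pointwise formula for `shAct`. -/
theorem shAct_apply {ι : Type} [DecidableEq ι] {Q : ι → Type u} [∀ i, AddCommGroup (Q i)]
    (e : ι) (v : ∀ i, Q i) (f : (∀ i, Q i) →₀ (Q e → ℚ)) (w : ∀ i, Q i) (q : Q e) :
    shAct e v f w q = f (w - Function.update v e 0) (q - v e) := by
  classical
  induction f using Finsupp.induction_linear with
  | zero => simp
  | add f g hf hg =>
    rw [map_add, Finsupp.add_apply, Finsupp.add_apply, Pi.add_apply, Pi.add_apply, hf, hg]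
  | single u y =>
    rw [shAct_single, Finsupp.single_apply, Finsupp.single_apply]
    by_cases h : u + Function.update v e 0 = w
    · have h' : u = w - Function.update v e 0 := eq_sub_of_add_eq h
      rw [if_pos h, if_pos h']
    · have h' : ¬ u = w - Function.update v e 0 := fun h2 => h (by rw [h2, sub_add_cancel])
      rw [if_neg h, if_neg h']
      rfl

/-- Crossed maps on the factors extend to the free product (any coefficient ring). -/
theorem extendY {ι : Type v} {A : ι → Type u} [∀ i, Group (A i)]
    {M : Type w} [AddCommGroup M] [Module ℚ M] (ρ : Monoid.CoprodI A →* Module.End ℚ M)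
    (d : ∀ i, A i → M)
    (hd : ∀ i a b, d i (a * b) = d i a + ρ (Monoid.CoprodI.of a) (d i b)) :
    ∃ δ : Monoid.CoprodI A → M, (∀ x y, δ (x * y) = δ x + ρ x (δ y)) ∧
      ∀ i (a : A i), δ (Monoid.CoprodI.of a) = d i a := by
  have hd1 : ∀ i, d i 1 = 0 := by
    intro i
    have h1 := hd i 1 1
    rw [mul_one, map_one, map_one] at h1
    simpa using h1
  let f : ∀ i, A i →* Function.End M := fun i =>
    { toFun := fun a v => d i a + ρ (Monoid.CoprodI.of a) v
      map_one' := by
        funext v
        simp [hd1]
        rfl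
      map_mul' := by
        intro a b
        funext v
        change d i (a * b) + ρ (Monoid.CoprodI.of (a * b)) v =
          d i a + ρ (Monoid.CoprodI.of a) (d i b + ρ (Monoid.CoprodI.of b) v)
        rw [hd, map_mul, map_mul, map_add, add_assoc]
        rfl }
  let g : Monoid.CoprodI A →* Function.End M := Monoid.CoprodI.lift f
  have hg : ∀ x v, g x v = g x 0 + ρ x v := by
    intro x
    induction x using Monoid.CoprodI.induction_on with
    | one =>
      intro v
      rw [map_one, map_one]
      change v = 0 + v
      rw [zero_add]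
    | of i a =>
      intro v
      have : g (Monoid.CoprodI.of a) = f i a := Monoid.CoprodI.lift_of f a
      rw [this]
      change d i a + ρ (Monoid.CoprodI.of a) v = d i a + ρ (Monoid.CoprodI.of a) 0 +
        ρ (Monoid.CoprodI.of a) v
      rw [map_zero, add_zero]
    | mul x y hx hy =>
      intro v
      rw [map_mul, map_mul]
      change g x (g y v) = g x (g y 0) + ρ x (ρ y v)
      rw [hx (g y v), hx (g y 0), hy v, map_add]
      abel
  refine ⟨fun x => g x 0, ?_, ?_⟩
  · intro x y
    change g (x * y) 0 = _
    rw [map_mul]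
    change g x (g y 0) = _
    rw [hg]
  · intro i a
    have : g (Monoid.CoprodI.of a) = f i a := Monoid.CoprodI.lift_of f a
    change g (Monoid.CoprodI.of a) 0 = _
    rw [this]
    change d i a + ρ (Monoid.CoprodI.of a) 0 = d i a
    rw [map_zero, add_zero]

/-- One factor, one slice: the crossed map of the free product which extends
`a ↦ (q ↦ δ a (update u e q))`. -/
theorem slice {ι : Type} [Fintype ι] [DecidableEq ι] {A : ι → Type u} [∀ i, Group (A i)]
    {Q : ι → Type u} [∀ i, AddCommGroup (Q i)] (α : ∀ i, A i → Q i)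
    (ω : Monoid.CoprodI A → (∀ i, Q i)) (hω : ∀ x y, ω (x * y) = ω x + ω y)
    (hωof : ∀ i (b : A i), ω (Monoid.CoprodI.of b) = Pi.single i (α i b))
    (δ : Monoid.CoprodI A → (∀ i, Q i) → ℚ)
    (hδ : ∀ x y v, δ (x * y) v = δ x v + δ y (v - ω x)) (e : ι) (u : ∀ i, Q i) :
    ∃ (Φ : Monoid.CoprodI A → ((∀ i, Q i) →₀ (Q e → ℚ))),
      (∀ a b q, (δ (Monoid.CoprodI.of (a * b)) (Function.update u e q) : ℚ) =
        δ (Monoid.CoprodI.of a) (Function.update u e q) +
        δ (Monoid.CoprodI.of (i := e) b) (Function.update u e (q - α e a))) ∧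
      (∀ x y, Φ (x * y) = Φ x + shAct e (ω x) (Φ y)) ∧
      (∀ a : A e, Φ (Monoid.CoprodI.of a) =
        Finsupp.single 0 (fun q => δ (Monoid.CoprodI.of a) (Function.update u e q))) ∧
      (∀ i, i ≠ e → ∀ a : A i, Φ (Monoid.CoprodI.of a) = 0) ∧
      (∀ x v, v e ≠ 0 → Φ x v = 0) := by
  classical
  have hω1 : ω 1 = 0 := by
    have := hω 1 1
    simpa using this
  have hcr : ∀ a b q, (δ (Monoid.CoprodI.of (a * b)) (Function.update u e q) : ℚ) =
        δ (Monoid.CoprodI.of a) (Function.update u e q) +
        δ (Monoid.CoprodI.of (i := e) b) (Function.update u e (q - α e a)) := by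
    intro a b q
    rw [map_mul, hδ, hωof]
    congr 2
    funext i
    by_cases hi : i = e
    · subst hi
      simp
    · simp [hi, Function.update_of_ne]
  let ρ : Monoid.CoprodI A →* Module.End ℚ ((∀ i, Q i) →₀ (Q e → ℚ)) :=
    { toFun := fun x => shAct e (ω x)
      map_one' := by
        refine LinearMap.ext fun f => Finsupp.ext fun w => funext fun q => ?_
        rw [shAct_apply, hω1]
        simp
      map_mul' := by
        intro x y
        refine LinearMap.ext fun f => Finsupp.ext fun w => funext fun q => ?_
        rw [Module.End.mul_apply, shAct_apply, shAct_apply, shAct_apply, hω]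
        have e1 : w - Function.update (ω x + ω y) e 0 =
            w - Function.update (ω x) e 0 - Function.update (ω y) e 0 := by
          funext i
          by_cases hi : i = e
          · subst hi
            simp
          · simp only [Pi.sub_apply, Function.update_of_ne hi, Pi.add_apply]
            abel
        have e2 : q - (ω x + ω y) e = q - ω x e - ω y e := by
          rw [Pi.add_apply, sub_sub]
        rw [e1, e2] }
  obtain ⟨Φ, hΦ, hΦof⟩ := extendY (A := A) ρ
    (fun i a => if h : i = e then
      Finsupp.single 0 (fun q => δ (Monoid.CoprodI.of a) (Function.update u e q)) else 0)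
    (by
      intro i a b
      by_cases h : i = e
      · subst h
        rw [dif_pos rfl, dif_pos rfl, dif_pos rfl]
        change _ = _ + shAct i (ω (Monoid.CoprodI.of a)) _
        rw [shAct_single, hωof]
        have h0 : (0 : ∀ i, Q i) + Function.update (Pi.single i (α i a)) i 0 = 0 := by
          rw [zero_add]
          funext j
          by_cases hj : j = i
          · subst hj
            simp
          · simp [hj, Function.update_of_ne]
        rw [h0, ← Finsupp.single_add]
        congr 1
        funext q
        rw [Pi.add_apply, Pi.single_eq_same]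
        exact hcr a b q
      · rw [dif_neg h, dif_neg h, dif_neg h, map_zero, add_zero])
  have hΦ' : ∀ x y, Φ (x * y) = Φ x + shAct e (ω x) (Φ y) := fun x y => hΦ x y
  have hΦ1 : Φ 1 = 0 := by
    have h1 := hΦ 1 1
    rw [mul_one, map_one] at h1
    simpa using h1
  refine ⟨Φ, hcr, hΦ', ?_, ?_, ?_⟩
  · intro a
    rw [hΦof, dif_pos rfl]
  · intro i hi a
    rw [hΦof, dif_neg hi]
  · intro x
    induction x using Monoid.CoprodI.induction_on with
    | one =>
      intro v _
      rw [hΦ1]
      rfl
    | of i a =>
      intro v hv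
      rw [hΦof]
      by_cases h : i = e
      · rw [dif_pos h, Finsupp.single_apply, if_neg]
        rintro rfl
        exact hv rfl
      · rw [dif_neg h]
        rfl
    | mul x y hx hy =>
      intro v hv
      rw [hΦ', Finsupp.add_apply, hx v hv, zero_add]
      funext q
      rw [shAct_apply, hy]
      · rfl
      · simpa using hv

/-- BLOCK Y (helper40). A crossed map on a free product with values in `(∀ i, Q i) → ℚ` that does
not vanish at `x` gives a crossed map `d` of ONE factor `A e` with values in `Q e → ℚ` such that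
the crossed map `Φ` of the free product which extends `d` (zero on the other factors, values
FINITELY supported in the directions `≠ e`) does not vanish at `x`.  -/
theorem detect {ι : Type} [Fintype ι] [DecidableEq ι] {A : ι → Type u} [∀ i, Group (A i)]
    {Q : ι → Type u} [∀ i, AddCommGroup (Q i)] (α : ∀ i, A i → Q i)
    (ω : Monoid.CoprodI A → (∀ i, Q i)) (hω : ∀ x y, ω (x * y) = ω x + ω y)
    (hωof : ∀ i (b : A i), ω (Monoid.CoprodI.of b) = Pi.single i (α i b))
    (δ : Monoid.CoprodI A → (∀ i, Q i) → ℚ)
    (hδ : ∀ x y v, δ (x * y) v = δ x v + δ y (v - ω x))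
    (x : Monoid.CoprodI A) (hx : δ x ≠ 0) :
    ∃ (e : ι) (d : A e → Q e → ℚ) (Φ : Monoid.CoprodI A → ((∀ i, Q i) →₀ (Q e → ℚ))),
      (∀ a b q, d (a * b) q = d a q + d b (q - α e a)) ∧
      (∀ x y, Φ (x * y) = Φ x + shAct e (ω x) (Φ y)) ∧
      (∀ a : A e, Φ (Monoid.CoprodI.of a) = Finsupp.single 0 (d a)) ∧
      (∀ i, i ≠ e → ∀ a : A i, Φ (Monoid.CoprodI.of a) = 0) ∧
      Φ x ≠ 0 ∧ ∀ v ∈ (Φ x).support, v e = 0 := by
  classical
  choose Φ hcr hΦ hΦe hΦi hΦs using slice α ω hω hωof δ hδ
  have hω1 : ω 1 = 0 := by
    have := hω 1 1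
    simpa using this
  have hδ1 : ∀ v, δ 1 v = 0 := by
    intro v
    have h1 := hδ 1 1 v
    rw [mul_one, hω1, sub_zero] at h1
    linarith
  have hΦ1 : ∀ e u, Φ e u 1 = 0 := by
    intro e u
    have h1 := hΦ e u 1 1
    rw [mul_one, hω1] at h1
    have h2 : shAct e (0 : ∀ i, Q i) (Φ e u 1) = Φ e u 1 := by
      refine Finsupp.ext fun w => funext fun q => ?_
      rw [shAct_apply]
      simp
    rw [h2] at h1
    simpa using h1
  have key : ∀ (x : Monoid.CoprodI A) (v : ∀ i, Q i), ∃ F : Finset (∀ i, Q i), ∀ F' : Finset (∀ i, Q i),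
      F ⊆ F' → δ x v = ∑ e, ∑ u ∈ F', Φ e u x (Function.update v e 0 - u) (v e) := by
    intro x
    induction x using Monoid.CoprodI.induction_on with
    | one =>
      intro v
      refine ⟨∅, fun F' _ => ?_⟩
      rw [hδ1]
      simp [hΦ1]
    | of i a =>
      intro v
      refine ⟨{Function.update v i 0}, fun F' hF' => ?_⟩
      rw [Finset.sum_eq_single i, Finset.sum_eq_single (Function.update v i 0)]
      · rw [hΦe, sub_self, Finsupp.single_eq_same]
        rw [Function.update_idem, Function.update_eq_self]
      · intro u _ hu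
        rw [hΦe, Finsupp.single_apply, if_neg]
        · rfl
        · intro h
          exact hu (sub_eq_zero.1 h.symm).symm
      · intro h
        exact absurd (hF' (Finset.mem_singleton_self _)) h
      · intro e _ he
        refine Finset.sum_eq_zero fun u _ => ?_
        rw [hΦi e u i he.symm]
        rfl
      · intro h
        exact absurd (Finset.mem_univ _) h
    | mul x y hx hy =>
      intro v
      obtain ⟨F1, h1⟩ := hx v
      obtain ⟨F2, h2⟩ := hy (v - ω x)
      refine ⟨F1 ∪ F2, fun F' hF' => ?_⟩
      rw [hδ, h1 F' (Finset.union_subset_left hF'), h2 F' (Finset.union_subset_right hF'),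
        ← Finset.sum_add_distrib]
      refine Finset.sum_congr rfl fun e _ => ?_
      rw [← Finset.sum_add_distrib]
      refine Finset.sum_congr rfl fun u _ => ?_
      rw [hΦ, Finsupp.add_apply, Pi.add_apply, shAct_apply]
      have e1 : Function.update (v - ω x) e 0 - u =
          Function.update v e 0 - u - Function.update (ω x) e 0 := by
        funext j
        by_cases hj : j = e
        · subst hj
          simp
        · simp only [Pi.sub_apply, Function.update_of_ne hj]
          abel
      rw [e1, Pi.sub_apply]
  obtain ⟨v, hv⟩ : ∃ v, δ x v ≠ 0 := by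
    by_contra hcon
    push Not at hcon
    exact hx (funext hcon)
  obtain ⟨F, hF⟩ := key x v
  have hF' := hF F (Finset.Subset.refl _)
  obtain ⟨e, -, he⟩ := Finset.exists_ne_zero_of_sum_ne_zero (hF' ▸ hv)
  obtain ⟨u, -, hu⟩ := Finset.exists_ne_zero_of_sum_ne_zero he
  refine ⟨e, fun a q => δ (Monoid.CoprodI.of a) (Function.update u e q), Φ e u, hcr e u, hΦ e u,
    hΦe e u, hΦi e u, ?_, ?_⟩
  · intro h0
    apply hu
    rw [h0]
    rfl
  · intro w hw
    by_contra hwe
    exact (Finsupp.mem_support_iff.1 hw) (hΦs e u x w hwe)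

end Pool.Agent.H90.FR
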