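import Mathlib

set_option autoImplicit false

namespace Pool.Agent.H90.FR

open AddMonoidAlgebra

universe u

/-- The translation action of `ℚ[P]` on the functions `P → ℚ`. -/
noncomputable def trAct (P : Type u) [AddCommGroup P] : ℚ[P] →ₐ[ℚ] Module.End ℚ (P → ℚ) :=
  AddMonoidAlgebra.lift ℚ _ P
    { toFun := fun q =>
        { toFun := fun w x => w (x - Multiplicative.toAdd q)
          map_add' := fun _ _ => rfl
          map_smul' := fun _ _ => rfl }
      map_one' := by
        ext w x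
        simp
      map_mul' := by
        intro a b
        apply LinearMap.ext
        intro w
        funext x
        change w (x - Multiplicative.toAdd (a * b)) =
          w (x - Multiplicative.toAdd a - Multiplicative.toAdd b)
        rw [toAdd_mul, sub_sub] }

theorem trAct_single {P : Type u} [AddCommGroup P] (q : P) (w : P → ℚ) :
    trAct P (single q 1) w = fun x => w (x - q) := by
  unfold trAct
  rw [AddMonoidAlgebra.lift_single, one_smul]
  rfl

/-- One field, one character and one functional for finitely many functions on `P`. -/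
theorem field_char2 {P : Type u} [AddCommGroup P] {K : Type u} [Finite K] (y : K → P → ℚ)
    (hy : ∃ k, y k ≠ 0) :
    ∃ (κ : Type u) (_ : Field κ) (_ : Algebra ℚ κ) (χ : Multiplicative P →* κ)
      (ψ : (P → ℚ) →ₗ[ℚ] κ),
      (∀ k q, ψ (fun x => y k (x - q)) = χ (Multiplicative.ofAdd q) * ψ (y k)) ∧
      ∃ k, ψ (y k) ≠ 0 := by
  let inst : Module ℚ[P] (P → ℚ) :=
    Module.compHom (P → ℚ) ((trAct P : ℚ[P] →ₐ[ℚ] Module.End ℚ (P → ℚ)) :
      ℚ[P] →+* Module.End ℚ (P → ℚ))
  have hsm : ∀ (r : ℚ[P]) (w : P → ℚ), r • w = trAct P r w := fun _ _ => rfl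
  let D : Submodule ℚ[P] (P → ℚ) := Submodule.span ℚ[P] (Set.range y)
  have hyD : ∀ k, y k ∈ D := fun k => Submodule.subset_span ⟨k, rfl⟩
  have : Module.Finite ℚ[P] D := Module.Finite.span_of_finite ℚ[P] (Set.finite_range y)
  have : Nontrivial D := by
    obtain ⟨k, hk⟩ := hy
    refine ⟨⟨⟨y k, hyD k⟩, 0, ?_⟩⟩
    intro h
    exact hk (congrArg Subtype.val h)
  obtain ⟨N, hN⟩ := IsCoatomic.exists_coatom (Submodule ℚ[P] D)
  have hS : IsSimpleModule ℚ[P] (D ⧸ N) := isSimpleModule_iff_isCoatom.2 hN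
  obtain ⟨I, hI, ⟨e⟩⟩ := isSimpleModule_iff_quot_maximal.1 hS
  let : Field (ℚ[P] ⧸ I) := Ideal.Quotient.field I
  let φ : D →ₗ[ℚ[P]] (ℚ[P] ⧸ I) := (e : (D ⧸ N) →ₗ[ℚ[P]] (ℚ[P] ⧸ I)).comp N.mkQ
  have hφne : ∃ k, φ ⟨y k, hyD k⟩ ≠ 0 := by
    by_contra hcon
    push Not at hcon
    have h1 : ∀ d : D, φ d = 0 := by
      rintro ⟨d, hd⟩
      induction hd using Submodule.span_induction with
      | mem x hx =>
        obtain ⟨k, rfl⟩ := hx
        exact hcon k
      | zero => exact map_zero φ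
      | add x x' hx hx' h h' =>
        have : (⟨x + x', D.add_mem hx hx'⟩ : D) = ⟨x, hx⟩ + ⟨x', hx'⟩ := rfl
        rw [this, map_add, h, h', add_zero]
      | smul r x hx h =>
        have : (⟨r • x, D.smul_mem r hx⟩ : D) = r • ⟨x, hx⟩ := rfl
        rw [this, map_smul, h, smul_zero]
    obtain ⟨s, hs⟩ := e.surjective 1
    obtain ⟨d, rfl⟩ := N.mkQ_surjective s
    have h2 : φ d = 1 := hs
    rw [h1] at h2
    exact zero_ne_one h2
  have hrat : ∀ (c : ℚ) (w : P → ℚ), (algebraMap ℚ ℚ[P] c) • w = c • w := by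
    intro c w
    rw [hsm, AlgHom.commutes]
    rfl
  let D' : Submodule ℚ (P → ℚ) :=
    { carrier := D
      add_mem' := fun ha hb => D.add_mem ha hb
      zero_mem' := D.zero_mem
      smul_mem' := by
        intro c w hw
        rw [← hrat]
        exact D.smul_mem _ hw }
  let φ' : D' →ₗ[ℚ] (ℚ[P] ⧸ I) :=
    { toFun := fun d => φ ⟨d.1, d.2⟩
      map_add' := fun a b => map_add φ ⟨a.1, a.2⟩ ⟨b.1, b.2⟩
      map_smul' := by
        intro c d
        have h1 : (⟨(c • d).1, (c • d).2⟩ : D) = algebraMap ℚ ℚ[P] c • (⟨d.1, d.2⟩ : D) := by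
          apply Subtype.ext
          exact (hrat c d.1).symm
        change φ (⟨(c • d).1, (c • d).2⟩ : D) = _
        rw [h1, map_smul, RingHom.id_apply, algebraMap_smul] }
  obtain ⟨ψ, hψ⟩ := LinearMap.exists_extend φ'
  have hψD : ∀ (d : P → ℚ) (hd : d ∈ D), ψ d = φ ⟨d, hd⟩ := fun d hd =>
    LinearMap.congr_fun hψ (⟨d, hd⟩ : D')
  refine ⟨ℚ[P] ⧸ I, inferInstance, inferInstance,
    ((Ideal.Quotient.mkₐ ℚ I : ℚ[P] →ₐ[ℚ] (ℚ[P] ⧸ I)) : ℚ[P] →* (ℚ[P] ⧸ I)).comp
      (AddMonoidAlgebra.of ℚ P), ψ, ?_, ?_⟩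
  · intro k q
    have h1 : (fun x => y k (x - q)) = (single q 1 : ℚ[P]) • y k := by
      rw [hsm, trAct_single]
    have h2 : (single q 1 : ℚ[P]) • y k ∈ D := D.smul_mem _ (hyD k)
    rw [h1, hψD _ h2, hψD _ (hyD k)]
    have h3 : (⟨(single q 1 : ℚ[P]) • y k, h2⟩ : D) = (single q 1 : ℚ[P]) • ⟨y k, hyD k⟩ := rfl
    rw [h3, map_smul]
    rw [Algebra.smul_def]
    rfl
  · obtain ⟨k, hk⟩ := hφne
    exact ⟨k, by rw [hψD _ (hyD k)]; exact hk⟩

/-- BLOCK X (helper51). One field, characters `χ i` and functionals `ψ i` for finitely many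
functions `y i k` on `Q i`; `ψ i` is `χ i`-equivariant on the translates of the `y i k` and does
not vanish on all of them.  (Product trick: all on `P = ∀ i, Q i` with
`y_tot x = ∏ i, y i (k i) (x i)`; `D' = span of the translates` is a finitely generated nonzero
module over `ℚ[P]`, so it has a maximal submodule, the quotient is simple, `≅ ℚ[P]/𝔪 = κ`.) -/
theorem field_family2 {ι : Type} [Fintype ι] [DecidableEq ι] {Q : ι → Type u}
    [∀ i, AddCommGroup (Q i)] {K : ι → Type u} [∀ i, Finite (K i)]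
    (y : ∀ i, K i → Q i → ℚ) (hy : ∀ i, ∃ k, y i k ≠ 0) :
    ∃ (κ : Type u) (_ : Field κ) (_ : Algebra ℚ κ) (χ : ∀ i, Multiplicative (Q i) →* κ)
      (ψ : ∀ i, (Q i → ℚ) →ₗ[ℚ] κ),
      (∀ i k q, ψ i (fun x => y i k (x - q)) = χ i (Multiplicative.ofAdd q) * ψ i (y i k)) ∧
      ∀ i, ∃ k, ψ i (y i k) ≠ 0 := by
  choose k₀ hk₀ using hy
  have hex : ∀ i, ∃ x, y i (k₀ i) x ≠ 0 := by
    intro i
    by_contra h
    push Not at h
    exact hk₀ i (funext h)
  choose x₀ hx₀ using hex
  obtain ⟨κ, _, _, χ, ψ, hψ, kk, hkk⟩ := field_char2 (P := ∀ i, Q i) (K := ∀ i, K i)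
    (fun k x => ∏ i, y i (k i) (x i)) ⟨k₀, by
      intro h
      have h1 := congrFun h x₀
      exact Finset.prod_ne_zero_iff.2 (fun i _ => hx₀ i) h1⟩
  let mu : ∀ i, (Q i → ℚ) →ₗ[ℚ] ((∀ i, Q i) → ℚ) := fun i =>
    { toFun := fun f x => f (x i) * ∏ j ∈ Finset.univ.erase i, y j (kk j) (x j)
      map_add' := by
        intro f g
        funext x
        simp only [Pi.add_apply, add_mul]
      map_smul' := by
        intro c f
        funext x
        simp only [Pi.smul_apply, smul_mul_assoc, RingHom.id_apply] }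
  have hmu : ∀ (i : ι) (k : K i) (q : Q i), mu i (fun x => y i k (x - q)) =
      fun x => ∏ j, y j ((Function.update kk i k) j) ((x - (Pi.single i q : ∀ i, Q i)) j) := by
    intro i k q
    funext x
    change y i k (x i - q) * ∏ j ∈ Finset.univ.erase i, y j (kk j) (x j) =
      ∏ j, y j ((Function.update kk i k) j) (x j - (Pi.single i q : ∀ i, Q i) j)
    rw [← Finset.mul_prod_erase _ _ (Finset.mem_univ i), Pi.single_eq_same, Function.update_self]
    congr 1
    refine Finset.prod_congr rfl fun j hj => ?_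
    rw [Pi.single_eq_of_ne (Finset.ne_of_mem_erase hj), sub_zero,
      Function.update_of_ne (Finset.ne_of_mem_erase hj)]
  have hmu0 : ∀ (i : ι) (k : K i), mu i (y i k) =
      fun x => ∏ j, y j ((Function.update kk i k) j) (x j) := by
    intro i k
    have h1 := hmu i k 0
    simp only [sub_zero, Pi.single_zero] at h1
    exact h1
  refine ⟨κ, inferInstance, inferInstance,
    fun i => χ.comp (AddMonoidHom.toMultiplicative (AddMonoidHom.single Q i)),
    fun i => ψ.comp (mu i), ?_, ?_⟩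
  · intro i k q
    rw [LinearMap.comp_apply, LinearMap.comp_apply, hmu, hmu0]
    exact hψ (Function.update kk i k) (Pi.single i q)
  · intro i
    refine ⟨kk i, ?_⟩
    rw [LinearMap.comp_apply, hmu0, Function.update_eq_self]
    exact hkk

end Pool.Agent.H90.FR
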