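import Mathlib
import Pool.Agent.Lib_helper90.FR.Factor

set_option autoImplicit false

namespace Pool.Agent.H90.FR

open TensorProduct

universe u v

/-- The rationalized abelianization, with its universal property. -/
theorem tensor_data2 (G : Type u) [Group G] :
    ∃ (Q : Type u) (_ : AddCommGroup Q) (_ : Module ℚ Q) (α : G → Q),
      (∀ a b, α (a * b) = α a + α b) ∧ (∀ a, α a = 0 ↔ a ∈ ratDer G) ∧
      ∀ φ : G → ℚ, (∀ a b, φ (a * b) = φ a + φ b) → ∃ ℓ : Q →ₗ[ℚ] ℚ, ∀ a, φ a = ℓ (α a) := by
  refine ⟨ℚ ⊗[ℤ] Additive (Abelianization G), inferInstance, inferInstance,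
    fun a => (1 : ℚ) ⊗ₜ[ℤ] Additive.ofMul (Abelianization.of a), ?_, ?_, ?_⟩
  · intro a b
    beta_reduce
    rw [map_mul, ofMul_mul, TensorProduct.tmul_add]
  · intro a
    have h1 := IsLocalizedModule.eq_zero_iff (nonZeroDivisors ℤ)
      (TensorProduct.mk ℤ ℚ (Additive (Abelianization G)) 1)
      (m := Additive.ofMul (Abelianization.of a))
    rw [TensorProduct.mk_apply] at h1
    rw [h1]
    unfold ratDer
    rw [Subgroup.mem_comap, CommGroup.mem_torsion, isOfFinOrder_iff_zpow_eq_one]
    constructor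
    · rintro ⟨c, hc⟩
      refine ⟨(c : ℤ), nonZeroDivisors.coe_ne_zero c, ?_⟩
      have h2 : (c : ℤ) • Additive.ofMul (Abelianization.of a) = 0 := hc
      rw [← ofMul_zpow] at h2
      exact Additive.ofMul.injective h2
    · rintro ⟨n, hn, h⟩
      refine ⟨⟨n, mem_nonZeroDivisors_of_ne_zero hn⟩, ?_⟩
      change n • Additive.ofMul (Abelianization.of a) = 0
      rw [← ofMul_zpow, h]
      rfl
  · intro φ hφ
    have hφ1 : φ 1 = 0 := by
      have := hφ 1 1
      simpa using this
    let f : G →* Multiplicative ℚ :=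
      { toFun := fun a => Multiplicative.ofAdd (φ a)
        map_one' := by rw [hφ1]; rfl
        map_mul' := fun a b => by rw [hφ]; rfl }
    let g : Additive (Abelianization G) →+ ℚ := MonoidHom.toAdditiveLeft (Abelianization.lift f)
    refine ⟨LinearMap.liftBaseChange ℚ g.toIntLinearMap, fun a => ?_⟩
    rw [LinearMap.liftBaseChange_tmul, one_smul]
    change φ a = Multiplicative.toAdd (Abelianization.lift f (Abelianization.of a))
    rw [Abelianization.lift_apply_of]
    rfl

/-- The rational derived subgroup of a free product is the kernel of the total map. -/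
theorem ratDer_coprod {ι : Type v} [Fintype ι] [DecidableEq ι] {A : ι → Type u}
    [∀ i, Group (A i)] {Q : ι → Type u} [∀ i, AddCommGroup (Q i)] [∀ i, Module ℚ (Q i)]
    (α : ∀ i, A i → Q i)
    (huniv : ∀ i, ∀ φ : A i → ℚ, (∀ a b, φ (a * b) = φ a + φ b) →
      ∃ ℓ : Q i →ₗ[ℚ] ℚ, ∀ a, φ a = ℓ (α i a))
    (ω : Monoid.CoprodI A → (∀ i, Q i)) (hω : ∀ x y, ω (x * y) = ω x + ω y)
    (hωof : ∀ i (b : A i), ω (Monoid.CoprodI.of b) = Pi.single i (α i b))
    (x : Monoid.CoprodI A) : ω x = 0 ↔ x ∈ ratDer (Monoid.CoprodI A) := by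
  have hω1 : ω 1 = 0 := by
    have := hω 1 1
    simpa using this
  constructor
  · intro h0
    by_contra hx
    obtain ⟨φ, hφ, hφx⟩ := functional x hx
    have hφ1 : φ 1 = 0 := by
      have := hφ 1 1
      simpa using this
    have hℓ : ∀ i, ∃ ℓ : Q i →ₗ[ℚ] ℚ, ∀ a, φ (Monoid.CoprodI.of (i := i) a) = ℓ (α i a) :=
      fun i => huniv i (fun a => φ (Monoid.CoprodI.of a)) (fun a b => by
        rw [map_mul, hφ])
    choose ℓ hℓ using hℓ
    have key : ∀ y, φ y = ∑ i, ℓ i (ω y i) := by
      intro y
      induction y using Monoid.CoprodI.induction_on with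
      | one =>
        rw [hφ1, hω1]
        simp
      | of i a =>
        rw [hℓ, hωof, Finset.sum_eq_single i]
        · rw [Pi.single_eq_same]
        · intro j _ hj
          rw [Pi.single_eq_of_ne hj, map_zero]
        · intro h
          exact absurd (Finset.mem_univ _) h
      | mul y z hy hz =>
        rw [hφ, hy, hz, hω, ← Finset.sum_add_distrib]
        refine Finset.sum_congr rfl fun i _ => ?_
        rw [Pi.add_apply, map_add]
    apply hφx
    rw [key, h0]
    simp
  · intro hx
    let ωh : Monoid.CoprodI A →* Multiplicative (∀ i, Q i) :=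
      { toFun := fun a => Multiplicative.ofAdd (ω a)
        map_one' := by rw [hω1]; rfl
        map_mul' := fun a b => by rw [hω]; rfl }
    unfold ratDer at hx
    rw [Subgroup.mem_comap, CommGroup.mem_torsion] at hx
    have h1 := MonoidHom.isOfFinOrder (Abelianization.lift ωh) hx
    rw [Abelianization.lift_apply_of, isOfFinOrder_iff_pow_eq_one] at h1
    obtain ⟨n, hn, h2⟩ := h1
    have h3 : n • ω x = 0 := by
      have h4 : Multiplicative.toAdd ((ωh x) ^ n) = 0 := by rw [h2]; rfl
      rw [toAdd_pow] at h4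
      exact h4
    rw [← Nat.cast_smul_eq_nsmul ℚ, smul_eq_zero] at h3
    rcases h3 with h3 | h3
    · exact absurd h3 (by exact_mod_cast hn.ne')
    · exact h3

end Pool.Agent.H90.FR
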