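import Mathlib
import Pool.Agent.Lib_helper90.FR.Core

set_option autoImplicit false

namespace Pool.Agent.H90.FR

open AddMonoidAlgebra

universe u v w

/-- The crossed map attached to a factor outside `U`. -/
theorem psi_hyp2 {ι : Type} [DecidableEq ι] {A : ι → Type u} [∀ i, Group (A i)]
    {κ : Type u} [Field κ] [Algebra ℚ κ] {Γ : Type u} [AddCommGroup Γ] [Module ℚ Γ]
    {Q : ι → Type u} [∀ i, AddCommGroup (Q i)] [∀ i, Module ℚ (Q i)]
    (α : ∀ i, A i → Q i) (hα : ∀ i a b, α i (a * b) = α i a + α i b)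
    (ω : Monoid.CoprodI A → (∀ i, Q i)) (hω : ∀ x y, ω (x * y) = ω x + ω y)
    (hωof : ∀ i (b : A i), ω (Monoid.CoprodI.of b) = Pi.single i (α i b))
    (T : (∀ i, Q i) →ₗ[ℚ] Γ) (τ : Γ →ₗ[ℚ] ℚ)
    (θ : Monoid.CoprodI A →* Multiplicative Γ)
    (hθ : ∀ x, Multiplicative.toAdd (θ x) = T (ω x))
    (J : Finset ι) (hTJ : ∀ i ∈ J, ∀ q, T (Pi.single i q) = 0) (k : ι)
    (f : (∀ i, Q i) →ₗ[ℚ] ℚ) (hf : k ∈ J → ∀ i ∉ J, ∀ q, f (Pi.single i q) = 0) :
    ∃ Ψ : Monoid.CoprodI A → κ[Γ],
      (∀ x y, Ψ (x * y) = Ψ x + single (Multiplicative.toAdd (θ x)) 1 * Ψ y) ∧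
      (∀ i, i ≠ k → i ∉ J → ∀ b : A i, Ψ (Monoid.CoprodI.of b) = 0) ∧
      (k ∈ J → ∀ x, PowerSeries.constantCoeff (ex (κ := κ) τ (Ψ x)) =
        algebraMap ℚ κ (f (ω x))) ∧
      (k ∉ J → ∀ x, PowerSeries.constantCoeff (ex (κ := κ) τ (Ψ x)) = 0) ∧
      (k ∉ J → ∀ x, PowerSeries.coeff 1 (ex (κ := κ) τ (Ψ x)) =
        algebraMap ℚ κ (τ (T (Pi.single k (ω x k))))) := by
  let ρ : Monoid.CoprodI A →* Module.End κ κ[Γ] :=
    ((Algebra.lmul κ κ[Γ] : κ[Γ] →ₐ[κ] Module.End κ κ[Γ]) : κ[Γ] →* Module.End κ κ[Γ]).comp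
      ((AddMonoidAlgebra.of κ Γ).comp θ)
  have hρ : ∀ x w, ρ x w = single (Multiplicative.toAdd (θ x)) 1 * w := fun _ _ => rfl
  by_cases hk : k ∈ J
  · obtain ⟨Ψ, hΨ, hΨof⟩ := extend (κ := κ) ρ
      (fun i b => single 0 (algebraMap ℚ κ (f (Pi.single i (α i b))))) (by
        intro i b b'
        rw [hρ, hθ, hωof]
        by_cases hi : i ∈ J
        · rw [hTJ i hi, single_mul_single, zero_add, one_mul, hα, ← single_add, ← map_add,
            Pi.single_add, map_add f]
        · rw [hf hk i hi, hf hk i hi, hf hk i hi, map_zero, single_zero, mul_zero, add_zero])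
    refine ⟨Ψ, fun x y => by rw [hΨ, hρ], ?_, ?_, fun h => absurd hk h, fun h => absurd hk h⟩
    · intro i _ hi b
      rw [hΨof, hf hk i hi, map_zero, single_zero]
    · intro _ x
      refine crossed_c0 τ (fun x => Multiplicative.toAdd (θ x)) ω hω Ψ
        (fun x y => by rw [hΨ, hρ]) f ?_ x
      intro i b
      rw [hΨof, hωof]
      have h1 : (single (0 : Γ) (algebraMap ℚ κ (f (Pi.single i (α i b)))) : κ[Γ]) =
          algebraMap ℚ κ (f (Pi.single i (α i b))) • (1 : κ[Γ]) := by
        rw [one_def, smul_single, smul_eq_mul, mul_one]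
      rw [h1, map_smul, map_one, PowerSeries.smul_eq_C_mul, mul_one,
        PowerSeries.constantCoeff_C]
  · obtain ⟨Ψ, hΨ, hΨof⟩ := extend (κ := κ) ρ
      (Function.update (β := fun i => A i → κ[Γ]) (fun _ _ => 0) k
        (fun b => single (T (Pi.single k (α k b))) 1 - 1)) (by
        intro i b b'
        by_cases hik : i = k
        · subst hik
          rw [Function.update_self, hρ, hθ, hωof, hα, Pi.single_add, map_add, mul_sub, mul_one,
            single_mul_single, one_mul]
          abel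
        · rw [Function.update_of_ne hik, map_zero, add_zero])
    have h0 : ∀ x, PowerSeries.constantCoeff (ex (κ := κ) τ (Ψ x)) = 0 := by
      intro x
      have h1 := crossed_c0 τ (fun x => Multiplicative.toAdd (θ x)) ω hω Ψ
        (fun x y => by rw [hΨ, hρ]) 0 (by
          intro i b
          rw [hΨof, LinearMap.zero_apply, map_zero]
          by_cases hik : i = k
          · subst hik
            rw [Function.update_self, map_sub, map_sub, ex_coeff_zero, map_one, map_one,
              sub_self]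
          · rw [Function.update_of_ne hik, map_zero, map_zero]) x
      rw [h1, LinearMap.zero_apply, map_zero]
    refine ⟨Ψ, fun x y => by rw [hΨ, hρ], ?_, fun h => absurd h hk, fun _ => h0, ?_⟩
    · intro i hi _ b
      rw [hΨof, Function.update_of_ne hi]
    · intro _ x
      let f' : (∀ i, Q i) →ₗ[ℚ] ℚ := τ.comp (T.comp ((LinearMap.single ℚ Q k).comp
        (LinearMap.proj k)))
      refine crossed_c1 τ (fun x => Multiplicative.toAdd (θ x)) ω hω Ψ
        (fun x y => by rw [hΨ, hρ]) f' h0 ?_ x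
      intro i b
      rw [hΨof, hωof]
      change _ = algebraMap ℚ κ (τ (T (Pi.single k ((Pi.single i (α i b) : ∀ i, Q i) k))))
      by_cases hik : i = k
      · subst hik
        rw [Function.update_self, map_sub, map_sub, ex_coeff_one, map_one,
          PowerSeries.coeff_one, if_neg one_ne_zero, sub_zero, Pi.single_eq_same]
      · rw [Function.update_of_ne hik, map_zero, map_zero,
          Pi.single_eq_of_ne (Ne.symm hik), Pi.single_zero, map_zero, map_zero, map_zero]

end Pool.Agent.H90.FR
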