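import Mathlib
import Pool.Agent.Lib_helper90.FR.Coeff
import Pool.Agent.Lib_helper90.FR.Comp

set_option autoImplicit false

namespace Pool.Agent.H90.FR

open AddMonoidAlgebra

universe u v w

/-- The combination `c` of the relators is killed by every crossed map which vanishes on the
factors in `X`. -/
def Rel {ι : Type} {A : ι → Type u} [∀ i, Group (A i)] {m : ℕ} (r : Fin m → Monoid.CoprodI A)
    {κ : Type u} [Field κ] {Γ : Type u} [AddCommGroup Γ]
    (θ : Monoid.CoprodI A →* Multiplicative Γ) (X : Finset ι) (c : Fin m → κ[Γ]) : Prop :=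
  ∀ (M : Type u) [AddCommGroup M] [Module κ M] (act : κ[Γ] →ₐ[κ] Module.End κ M)
    (δ : Monoid.CoprodI A → M),
    (∀ x y, δ (x * y) = δ x + act (single (Multiplicative.toAdd (θ x)) 1) (δ y)) →
    (∀ i ∈ X, ∀ b : A i, δ (Monoid.CoprodI.of b) = 0) → ∑ l, act (c l) (δ (r l)) = 0

theorem step {ι : Type} [DecidableEq ι] {A : ι → Type u} [∀ i, Group (A i)] {m : ℕ}
    (r : Fin m → Monoid.CoprodI A) {κ : Type u} [Field κ] [Algebra ℚ κ] {Γ : Type u}
    [AddCommGroup Γ] {Q : ι → Type u} [∀ i, AddCommGroup (Q i)] (α : ∀ i, A i → Q i)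
    (te : ∀ i, Q i →+ Γ) (p : ∀ i, Γ →+ Q i) (θ : Monoid.CoprodI A →* Multiplicative Γ)
    (hθ : ∀ i (a : A i), θ (Monoid.CoprodI.of a) = Multiplicative.ofAdd (te i (α i a)))
    (X : Finset ι)
    (hpX : ∀ (i : X) (v : ∀ j : X, Q j), p i (∑ j : X, te j (v j)) = v i)
    (z : Monoid.CoprodI (fun i : X => A i)) (c : Fin m → κ[Γ])
    (hc : ∀ (M : Type u) [AddCommGroup M] [Module κ M] (act : κ[Γ] →ₐ[κ] Module.End κ M)
      (δ : Monoid.CoprodI A → M),
      (∀ x y, δ (x * y) = δ x + act (single (Multiplicative.toAdd (θ x)) 1) (δ y)) →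
      δ (Monoid.CoprodI.lift (M := fun i : X => A i)
        (fun i => Monoid.CoprodI.of (i := (i : ι))) z) = ∑ l, act (c l) (δ (r l)))
    (ω : Monoid.CoprodI (fun i : X => A i) → (∀ i : X, Q i))
    (hω : ∀ x y, ω (x * y) = ω x + ω y)
    (hωof : ∀ (i : X) (b : A i), ω (Monoid.CoprodI.of (M := fun i : X => A i) (i := i) b) =
      Pi.single i (α i b))
    (e : X) (d : A e → Q e → ℚ) (hd : ∀ a b q, d (a * b) q = d a q + d b (q - α e a))
    (Φ : Monoid.CoprodI (fun i : X => A i) → ((∀ i : X, Q i) →₀ (Q e → ℚ)))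
    (hΦ : ∀ x y, Φ (x * y) = Φ x + shAct (Q := fun i : X => Q i) e (ω x) (Φ y))
    (hΦe : ∀ a : A e, Φ (Monoid.CoprodI.of (M := fun i : X => A i) (i := e) a) =
      Finsupp.single 0 (d a))
    (hΦi : ∀ i : X, i ≠ e → ∀ a : A i,
      Φ (Monoid.CoprodI.of (M := fun i : X => A i) (i := i) a) = 0)
    (χ : Multiplicative (Q e) →* κ) (ψ : (Q e → ℚ) →ₗ[ℚ] κ)
    (hψ : ∀ u ∈ (Φ z).support, ∀ q, ψ (fun x => Φ z u (x - q)) =
      χ (Multiplicative.ofAdd q) * ψ (Φ z u))
    (u₀ : ∀ i : X, Q i) (hu₀ : u₀ ∈ (Φ z).support) (hψ0 : ψ (Φ z u₀) ≠ 0) :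
    Rel r θ X c ∧ ∃ g : κ[Γ], g ≠ 0 ∧ ∀ π : κ[Γ] →ₐ[κ] κ[Γ],
      (∀ i ∈ X, ∀ q, π (single (te i q) 1) = single (te i q) 1) →
        ∃ v : Fin m → (Q e → κ[Γ]),
          (∀ c', Rel r θ (X.erase e) c' → ∑ l, tw κ (te e) (p e) (π (c' l)) (v l) = 0) ∧
          ∑ l, tw κ (te e) (p e) (π (c l)) (v l) =
            fun q => g * single 0 (χ (Multiplicative.ofAdd (-q))) := by
  classical
  set J : Monoid.CoprodI (fun i : X => A i) →* Monoid.CoprodI A :=
    Monoid.CoprodI.lift (M := fun i : X => A i) (fun i => Monoid.CoprodI.of (i := (i : ι)))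
    with hJ
  have hJof : ∀ (i : X) (a : A i), J (Monoid.CoprodI.of (M := fun i : X => A i) (i := i) a) =
      Monoid.CoprodI.of (i := (i : ι)) a := fun i a => Monoid.CoprodI.lift_of _ _
  refine ⟨?_, ?_⟩
  · intro M _ _ act δ hδ h0
    rw [← hc M act δ hδ]
    have hδ1 : δ 1 = 0 := by
      have h1 := hδ 1 1
      rw [mul_one, map_one, toAdd_one] at h1
      have h2 : (single (0 : Γ) (1 : κ) : κ[Γ]) = 1 := rfl
      rw [h2, map_one, Module.End.one_apply] at h1
      exact left_eq_add.1 h1
    have key : ∀ y, δ (J y) = 0 := by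
      intro y
      induction y using Monoid.CoprodI.induction_on with
      | one => rw [map_one, hδ1]
      | of i a => rw [hJof, h0 i i.2]
      | mul x y hx hy => rw [map_mul, hδ, hx, hy, map_zero, add_zero]
    exact key z
  · refine ⟨∑ u ∈ (Φ z).support, single (∑ i : X, te i (u i)) (ψ (Φ z u)), ?_, ?_⟩
    · intro h0
      have h1 := congrArg (fun x : κ[Γ] => x.coeff (∑ i : X, te i (u₀ i))) h0
      beta_reduce at h1
      rw [coeff_sum, Finsupp.finsetSum_apply, Finset.sum_eq_single u₀] at h1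
      · rw [coeff_single, Finsupp.single_eq_same] at h1
        exact hψ0 h1
      · intro u _ hu
        rw [coeff_single, Finsupp.single_eq_of_ne]
        intro h2
        apply hu
        funext i
        rw [← hpX i u, ← hpX i u₀, h2]
      · intro h
        exact absurd hu₀ h
    · intro π hπ
      let act : κ[Γ] →ₐ[κ] Module.End κ (Q e → κ[Γ]) := (tw κ (te e) (p e)).comp π
      let ρ : Monoid.CoprodI A →* Module.End κ (Q e → κ[Γ]) :=
        (act : κ[Γ] →* Module.End κ (Q e → κ[Γ])).comp ((AddMonoidAlgebra.of κ Γ).comp θ)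
      have hρ : ∀ x w, ρ x w = act (single (Multiplicative.toAdd (θ x)) 1) w := fun _ _ => rfl
      have hpe : ∀ q, p e (te e q) = q := by
        intro q
        have h1 := hpX e (Pi.single e q)
        rw [Finset.sum_eq_single e, Pi.single_eq_same] at h1
        · exact h1
        · intro j _ hj
          rw [Pi.single_eq_of_ne hj, map_zero]
        · intro h
          exact absurd (Finset.mem_univ _) h
      have hρk : ∀ (b : A e) (w : Q e → κ[Γ]) (q : Q e),
          ρ (Monoid.CoprodI.of b) w q = w (q - α e b) := by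
        intro b w q
        rw [hρ, hθ, toAdd_ofAdd]
        change tw κ (te e) (p e) (π (single (te e (α e b)) 1)) w q = _
        rw [hπ e e.2, tw_single, hpe, sub_self]
        exact one_mul _
      obtain ⟨Φ', hΦ', hΦof⟩ := extend (κ := κ) ρ
        (Function.update (β := fun i => A i → (Q e → κ[Γ])) (fun _ _ => 0) (e : ι)
          (fun b q => single 0 (ψ fun t => d b (t + q)))) (by
        intro i b b'
        by_cases hik : i = e
        · subst hik
          rw [Function.update_self]
          funext q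
          rw [Pi.add_apply, hρk, ← single_add, ← map_add]
          congr 2
          funext t
          rw [Pi.add_apply, hd]
          congr 2
          abel
        · rw [Function.update_of_ne hik]
          change (0 : Q e → κ[Γ]) = 0 + ρ _ 0
          rw [map_zero, add_zero])
      have hΦcr : ∀ x y, Φ' (x * y) = Φ' x +
          act (single (Multiplicative.toAdd (θ x)) 1) (Φ' y) := fun x y => by rw [hΦ', hρ]
      refine ⟨fun l => Φ' (r l), ?_, ?_⟩
      · intro c' hc'
        refine hc' _ act Φ' hΦcr ?_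
        intro i hi b
        rw [hΦof, Function.update_of_ne (Finset.ne_of_mem_erase hi)]
      · have h1 := hc _ act Φ' hΦcr
        change ∑ l, act (c l) (Φ' (r l)) = _
        rw [← h1]
        funext q
        have h2 := comparison (κ := κ) α X te e ψ (p e) (fun v => hpX e v) θ hθ ω hω hωof d Φ hΦ hΦe
          hΦi π hπ Φ' hΦcr (fun a => by rw [hΦof, Function.update_self])
          (fun i _ hie a => by rw [hΦof, Function.update_of_ne hie]) z q
        rw [h2]
        have h3 : ev X te e ψ q (Φ z) =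
            ∑ u ∈ (Φ z).support, single (∑ i : X, te i (u i)) (ψ (fun t => Φ z u (t + q))) := by
          conv_lhs => rw [← Finsupp.sum_single (Φ z), Finsupp.sum, map_sum]
          refine Finset.sum_congr rfl fun u _ => ?_
          rw [ev_single]
        rw [h3, Finset.sum_mul]
        refine Finset.sum_congr rfl fun u hu => ?_
        rw [single_mul_single, add_zero, mul_comm, ← hψ u hu]
        congr 2
        funext t
        rw [sub_neg_eq_add]

end Pool.Agent.H90.FR
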