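import Mathlib
import Pool.Agent.Lib_helper90.FR.Psi2
import Pool.Agent.Lib_helper90.FR.Coeff2
import Pool.Agent.Lib_helper90.FR.Step
import Pool.Agent.Lib_helper90.FR.Level1
import Pool.Agent.Lib_helper90.FR.FieldFam
import Pool.Agent.Lib_helper90.FR.Detect

set_option autoImplicit false

namespace Pool.Agent.H90.FR

open AddMonoidAlgebra

universe u v w

theorem core2 {ι : Type} [Fintype ι] [DecidableEq ι] {A : ι → Type u} [∀ i, Group (A i)] {m : ℕ}
    (r : Fin m → Monoid.CoprodI A) (t : ℕ)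
    (hbad : ∀ X : Finset ι, t < X.card → ∃ z : Monoid.CoprodI (fun i : X => A i),
      QuotientGroup.mk' (Subgroup.normalClosure (Set.range r)) (Monoid.CoprodI.lift
        (M := fun i : X => A i) (fun i => Monoid.CoprodI.of (i := (i : ι))) z)
        ∈ ratDer2 (Monoid.CoprodI A ⧸ Subgroup.normalClosure (Set.range r)) ∧
      z ∉ ratDer2 (Monoid.CoprodI (fun i : X => A i))) : Fintype.card ι ≤ t + m := by
  classical
  choose Q iQ1 iQ2 α hα hk huniv using fun i => tensor_data2 (A i)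
  -- the total map
  have hα1 : ∀ i, α i 1 = 0 := by
    intro i
    have := hα i 1 1
    simpa using this
  have htot : ∀ {ι' : Type} [Fintype ι'] [DecidableEq ι'] (f : ι' → ι),
      ∃ ωh : Monoid.CoprodI (fun i : ι' => A (f i)) →* Multiplicative (∀ i : ι', Q (f i)),
        ∀ (i : ι') (b : A (f i)),
          ωh (Monoid.CoprodI.of (M := fun i : ι' => A (f i)) (i := i) b) =
            Multiplicative.ofAdd (Pi.single i (α (f i) b)) := by
    intro ι' _ _ f
    refine ⟨Monoid.CoprodI.lift (M := fun i : ι' => A (f i)) fun i =>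
      { toFun := fun b => Multiplicative.ofAdd (Pi.single i (α (f i) b))
        map_one' := by rw [hα1, Pi.single_zero]; rfl
        map_mul' := by
          intro b b'
          rw [hα, Pi.single_add]
          rfl }, fun i b => Monoid.CoprodI.lift_of (M := fun i : ι' => A (f i)) _ b⟩
  obtain ⟨ωh, hωh⟩ := htot (fun i : ι => i)
  let ω : Monoid.CoprodI A → (∀ i, Q i) := fun x => Multiplicative.toAdd (ωh x)
  have hω : ∀ x y, ω (x * y) = ω x + ω y := by
    intro x y
    change Multiplicative.toAdd (ωh (x * y)) = _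
    rw [map_mul]
    rfl
  have hωof : ∀ i (b : A i), ω (Monoid.CoprodI.of b) = Pi.single i (α i b) := by
    intro i b
    change Multiplicative.toAdd (ωh (Monoid.CoprodI.of b)) = _
    rw [hωh]
    rfl
  let R : Submodule ℚ (∀ i, Q i) := Submodule.span ℚ (Set.range fun l => ω (r l))
  have hRfd : FiniteDimensional ℚ R := FiniteDimensional.span_of_finite ℚ (Set.finite_range _)
  obtain ⟨J, U, Γ, _, _, T, p, s, f, τ, hJU, hTR, hTJ, hTinj, hpT, hsR, hsJ, hfJ, hfs, hsE,
    hτ⟩ := selection Q R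
  let te : ∀ i, Q i →+ Γ := fun i => (T.comp (LinearMap.single ℚ Q i)).toAddMonoidHom
  have hte : ∀ i q, te i q = T (Pi.single i q) := fun _ _ => rfl
  let pa : ∀ i, Γ →+ Q i := fun i => (p i).toAddMonoidHom
  have hpa : ∀ i γ, pa i γ = p i γ := fun _ _ => rfl
  let θ : Monoid.CoprodI A →* Multiplicative Γ :=
    (AddMonoidHom.toMultiplicative T.toAddMonoidHom).comp ωh
  have hθω : ∀ x, Multiplicative.toAdd (θ x) = T (ω x) := fun _ => rfl
  have hθof : ∀ i (b : A i), θ (Monoid.CoprodI.of b) = Multiplicative.ofAdd (te i (α i b)) := by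
    intro i b
    apply Multiplicative.toAdd.injective
    rw [hθω, hωof, toAdd_ofAdd, hte]
  have hθr : ∀ l, Multiplicative.toAdd (θ (r l)) = 0 := by
    intro l
    rw [hθω]
    exact hTR _ (Submodule.subset_span ⟨l, rfl⟩)
  have hUJ : ∀ i ∈ U, i ∉ J := fun i hi hj => hJU i hj hi
  have hpX : ∀ X : Finset ι, X ⊆ U → ∀ (i : X) (v : ∀ j : X, Q j),
      pa i (∑ j : X, te j (v j)) = v i := by
    intro X hX i v
    rw [map_sum, Finset.sum_eq_single i]
    · rw [hpa, hte, hpT _ _ (hX i.2), Pi.single_eq_same]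
    · intro j _ hj
      rw [hpa, hte, hpT _ _ (hX j.2), Pi.single_eq_of_ne (fun h => hj (Subtype.ext h.symm))]
    · intro h
      exact absurd (Finset.mem_univ _) h
  -- the data of a bad set
  let IX := {X : Finset ι // X ⊆ U ∧ t < X.card}
  have hdata : ∀ X : IX, ∃ (z : Monoid.CoprodI (fun i : X.1 => A i))
      (ω' : Monoid.CoprodI (fun i : X.1 => A i) → (∀ i : X.1, Q i)) (e : X.1)
      (d : A e → Q e → ℚ)
      (Φ : Monoid.CoprodI (fun i : X.1 => A i) → ((∀ i : X.1, Q i) →₀ (Q e → ℚ))),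
      QuotientGroup.mk' (Subgroup.normalClosure (Set.range r)) (Monoid.CoprodI.lift
        (M := fun i : X.1 => A i) (fun i => Monoid.CoprodI.of (i := (i : ι))) z)
        ∈ ratDer2 (Monoid.CoprodI A ⧸ Subgroup.normalClosure (Set.range r)) ∧
      (∀ x y, ω' (x * y) = ω' x + ω' y) ∧
      (∀ (i : X.1) (b : A i),
        ω' (Monoid.CoprodI.of (M := fun i : X.1 => A i) (i := i) b) = Pi.single i (α i b)) ∧
      (∀ a b q, d (a * b) q = d a q + d b (q - α e a)) ∧
      (∀ x y, Φ (x * y) = Φ x + shAct (Q := fun i : X.1 => Q i) e (ω' x) (Φ y)) ∧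
      (∀ a : A e, Φ (Monoid.CoprodI.of (M := fun i : X.1 => A i) (i := e) a) =
        Finsupp.single 0 (d a)) ∧
      (∀ i : X.1, i ≠ e → ∀ a : A i,
        Φ (Monoid.CoprodI.of (M := fun i : X.1 => A i) (i := i) a) = 0) ∧
      Φ z ≠ 0 := by
    intro X
    obtain ⟨z, hzN, hz2⟩ := hbad X.1 X.2.2
    obtain ⟨ωh', hωh'⟩ := htot (fun i : X.1 => (i : ι))
    let ω' : Monoid.CoprodI (fun i : X.1 => A i) → (∀ i : X.1, Q i) :=
      fun x => Multiplicative.toAdd (ωh' x)
    have hω' : ∀ x y, ω' (x * y) = ω' x + ω' y := by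
      intro x y
      change Multiplicative.toAdd (ωh' (x * y)) = _
      rw [map_mul]
      rfl
    have hωof' : ∀ (i : X.1) (b : A i),
        ω' (Monoid.CoprodI.of (M := fun i : X.1 => A i) (i := i) b) = Pi.single i (α i b) := by
      intro i b
      change Multiplicative.toAdd (ωh' (Monoid.CoprodI.of b)) = _
      rw [hωh']
      rfl
    have hrd : ∀ x, ω' x = 0 ↔ x ∈ ratDer (Monoid.CoprodI (fun i : X.1 => A i)) :=
      ratDer_coprod (A := fun i : X.1 => A i) (Q := fun i : X.1 => Q i) (fun i => α i)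
        (fun i => huniv i) ω' hω' hωof'
    have hθJ : ∀ x, Multiplicative.toAdd (θ (Monoid.CoprodI.lift (M := fun i : X.1 => A i)
        (fun i => Monoid.CoprodI.of (i := (i : ι))) x)) = ∑ i : X.1, te i (ω' x i) := by
      intro x
      have hω1 : ω' 1 = 0 := by
        have := hω' 1 1
        simpa using this
      induction x using Monoid.CoprodI.induction_on with
      | one =>
        rw [map_one, map_one, hω1, toAdd_one]
        simp
      | of i a =>
        rw [Monoid.CoprodI.lift_of, hθof, hωof', toAdd_ofAdd, Finset.sum_eq_single i]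
        · rw [Pi.single_eq_same]
        · intro j _ hj
          rw [Pi.single_eq_of_ne hj, map_zero]
        · intro h
          exact absurd (Finset.mem_univ _) h
      | mul x y hx hy =>
        rw [map_mul, map_mul, toAdd_mul, hx, hy, hω', ← Finset.sum_add_distrib]
        refine Finset.sum_congr rfl fun i _ => ?_
        rw [Pi.add_apply, map_add]
    have hz1 : z ∈ ratDer (Monoid.CoprodI (fun i : X.1 => A i)) := by
      rw [← hrd]
      have h1 := (coeffs2 r (κ := ℚ) θ hθr _ hzN).1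
      rw [hθJ] at h1
      funext i
      rw [← hpX X.1 X.2.1 i (ω' z), h1, map_zero, Pi.zero_apply]
    obtain ⟨δ, hδ, hδz⟩ := crossed ω' hω' hrd z hz1 hz2
    obtain ⟨e, d, Φ, hd, hΦ, hΦe, hΦi, hΦz, -⟩ := detect (A := fun i : X.1 => A i)
      (Q := fun i : X.1 => Q i) (fun i => α i) ω' hω' hωof' δ hδ z hδz
    exact ⟨z, ω', e, d, Φ, hzN, hω', hωof', hd, hΦ, hΦe, hΦi, hΦz⟩
  choose z ω' e d Φ hzN hω' hωof' hd hΦ hΦe hΦi hΦz using hdata
  -- the field
  obtain ⟨κ, _, _, χ, ψ, hψ, hψ0⟩ := field_family2 (ι := IX) (Q := fun X => Q (e X))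
    (K := fun X => {u // u ∈ (Φ X (z X)).support}) (fun X u => Φ X (z X) u.1) (by
      intro X
      obtain ⟨u, hu⟩ := Finsupp.support_nonempty_iff.2 (hΦz X)
      exact ⟨⟨u, hu⟩, Finsupp.mem_support_iff.1 hu⟩)
  have hcoef := fun X : IX => (coeffs2 r (κ := κ) θ hθr _ (hzN X)).2
  choose cX hcX using hcoef
  -- the chain
  have hchain := chain2 (κ := κ) Q U te pa (by
      intro i _ j hj hij q
      rw [hpa, hte, hpT i j hj, Pi.single_eq_of_ne hij]) (Rel r θ)
    (fun X Y c hXY h M _ _ act δ hδ h0 => h M act δ hδ fun i hi => h0 i (hXY hi)) t (by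
      intro X hXU hX
      have hX' := (⟨X, hXU, hX⟩ : IX)
      obtain ⟨u₀, hu₀⟩ := hψ0 ⟨X, hXU, hX⟩
      obtain ⟨hrel, g, hg, hstep⟩ := step r α te pa θ hθof X (hpX X hXU) (z ⟨X, hXU, hX⟩)
        (cX ⟨X, hXU, hX⟩) (fun M _ _ act δ h => hcX ⟨X, hXU, hX⟩ M act δ h)
        (ω' ⟨X, hXU, hX⟩) (hω' ⟨X, hXU, hX⟩) (hωof' ⟨X, hXU, hX⟩) (e ⟨X, hXU, hX⟩)
        (d ⟨X, hXU, hX⟩) (hd ⟨X, hXU, hX⟩) (Φ ⟨X, hXU, hX⟩) (hΦ ⟨X, hXU, hX⟩)
        (hΦe ⟨X, hXU, hX⟩) (hΦi ⟨X, hXU, hX⟩) (χ ⟨X, hXU, hX⟩) (ψ ⟨X, hXU, hX⟩)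
        (fun u hu q => hψ ⟨X, hXU, hX⟩ ⟨u, hu⟩ q) u₀.1 u₀.2 hu₀
      exact ⟨e ⟨X, hXU, hX⟩, (e ⟨X, hXU, hX⟩).2, χ ⟨X, hXU, hX⟩, cX ⟨X, hXU, hX⟩, g, hg, hrel,
        hstep⟩)
  have hj : ∃ j, U.card ≤ t + j ∧ t + j ≤ t + U.card ∧ ∃ c : Fin j → Fin m → κ[Γ],
      (∀ i, Rel r θ U (c i)) ∧
      ∃ g : Fin j → Fin m, Matrix.det (Matrix.of fun i i' => c i (g i')) ≠ 0 := by
    by_cases hU : t ≤ U.card
    · obtain ⟨c, hc, hdet⟩ := hchain (U.card - t) U (Finset.Subset.refl _) (by omega)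
      obtain ⟨g, hg⟩ := hdet (AlgHom.id κ κ[Γ]) (fun _ _ _ => rfl)
      exact ⟨U.card - t, by omega, by omega, c, hc, g, hg⟩
    · refine ⟨0, by omega, by omega, fun i => i.elim0, fun i => i.elim0, fun i => i.elim0, ?_⟩
      rw [Matrix.det_isEmpty]
      exact one_ne_zero
  obtain ⟨j, hj1, -, c, hc, g, hg⟩ := hj
  -- the crossed maps outside `U`
  have hpsi := fun k : {k // k ∉ U} => psi_hyp2 (κ := κ) α hα ω hω hωof T τ θ hθω J hTJ k.1
    (f k.1) (fun h i hi q => hfJ k.1 h i hi q)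
  choose Ψ hΨ hΨ0 hΨJ hΨE0 hΨE1 using hpsi
  have hcomb : ∀ k : {k // k ∉ U}, ∃ q : Fin m → ℚ, ∑ l, q l • ω (r l) = s k.1 := fun k =>
    (Submodule.mem_span_range_iff_exists_fun ℚ).1 (hsR k.1 k.2)
  choose q hq using hcomb
  let bK : {k // k ∉ U} → Fin m → κ[Γ] := fun k l => single 0 (algebraMap ℚ κ (q k l))
  let N : Matrix {k // k ∉ U} {k // k ∉ U} κ[Γ] :=
    Matrix.of fun k k' => ∑ l, bK k' l * Ψ k (r l)
  have hexb : ∀ (k : {k // k ∉ U}) (l : Fin m),
      ex (κ := κ) τ (bK k l) = PowerSeries.C (algebraMap ℚ κ (q k l)) := by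
    intro k l
    have h1 : bK k l = algebraMap ℚ κ (q k l) • (1 : κ[Γ]) := by
      rw [one_def, smul_single, smul_eq_mul, mul_one]
    rw [h1, map_smul, map_one, PowerSeries.smul_eq_C_mul, mul_one]
  have hsum0 : ∀ (k k' : {k // k ∉ U}) (F : (∀ i, Q i) →ₗ[ℚ] ℚ),
      (∀ x, PowerSeries.constantCoeff (ex (κ := κ) τ (Ψ k x)) = algebraMap ℚ κ (F (ω x))) →
      PowerSeries.constantCoeff (ex (κ := κ) τ (N k k')) = algebraMap ℚ κ (F (s k'.1)) := by
    intro k k' F h
    change PowerSeries.constantCoeff (ex (κ := κ) τ (∑ l, bK k' l * Ψ k (r l))) = _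
    rw [map_sum, map_sum, ← hq k', map_sum, map_sum]
    refine Finset.sum_congr rfl fun l _ => ?_
    rw [map_mul, map_mul, hexb, PowerSeries.constantCoeff_C, h, map_smul, smul_eq_mul, map_mul]
  have hsum1 : ∀ (k k' : {k // k ∉ U}), k.1 ∉ J →
      PowerSeries.coeff 1 (ex (κ := κ) τ (N k k')) =
        algebraMap ℚ κ (τ (T (Pi.single k.1 (s k'.1 k.1)))) := by
    intro k k' hk
    let F : (∀ i, Q i) →ₗ[ℚ] ℚ := τ.comp (T.comp ((LinearMap.single ℚ Q k.1).comp
      (LinearMap.proj k.1)))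
    have hF : ∀ v, τ (T (Pi.single k.1 (v k.1))) = F v := fun _ => rfl
    change PowerSeries.coeff 1 (ex (κ := κ) τ (∑ l, bK k' l * Ψ k (r l))) = _
    rw [map_sum, map_sum, hF, ← hq k', map_sum, map_sum]
    refine Finset.sum_congr rfl fun l _ => ?_
    rw [map_mul, hexb, PowerSeries.coeff_C_mul, hΨE1 k hk, hF, map_smul, smul_eq_mul, map_mul]
  have hN : N.det ≠ 0 := by
    have h1 : ((ex (κ := κ) τ : κ[Γ] →ₐ[κ] PowerSeries κ).toRingHom.mapMatrix N).det ≠ 0 := by
      refine det_ne_zero_of_orders (fun k : {k // k ∉ U} => k.1 ∈ J) _ ?_ ?_ ?_ ?_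
      · intro k k' hk hk'
        change PowerSeries.constantCoeff (ex (κ := κ) τ (N k k')) = _
        rw [hsum0 k k' (f k.1) (hΨJ k hk), hfs k.1 hk k'.1 hk']
        by_cases h : k = k'
        · rw [if_pos h, if_pos (congrArg Subtype.val h), map_one]
        · rw [if_neg h, if_neg (fun h' => h (Subtype.ext h')), map_zero]
      · intro k k' hk
        change PowerSeries.constantCoeff (ex (κ := κ) τ (N k k')) = _
        rw [hsum0 k k' 0 (fun x => by rw [hΨE0 k hk x, LinearMap.zero_apply, map_zero]),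
          LinearMap.zero_apply, map_zero]
      · intro k k' hk hkk
        change PowerSeries.coeff 1 (ex (κ := κ) τ (N k k')) = _
        rw [hsum1 k k' hk]
        have h0 : s k'.1 k.1 = 0 := by
          by_cases hk' : k'.1 ∈ J
          · exact hsJ k'.1 hk' k.1 hk
          · exact hsE k'.1 hk' k'.2 k.1 hk k.2 (fun h => hkk (Subtype.ext h))
        rw [h0, Pi.single_zero, map_zero, map_zero, map_zero]
      · intro k hk
        change PowerSeries.coeff 1 (ex (κ := κ) τ (N k k)) ≠ 0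
        rw [hsum1 k k hk]
        intro h
        exact hτ k.1 hk k.2 ((algebraMap ℚ κ).injective (h.trans (map_zero _).symm))
    rw [← RingHom.map_det] at h1
    intro h2
    rw [h2, map_zero] at h1
    exact h1 rfl
  -- independence
  let b : Fin j ⊕ {k // k ∉ U} → Fin m → κ[Γ] := Sum.elim c bK
  have hli : LinearIndependent κ[Γ] b := by
    rw [Fintype.linearIndependent_iff]
    intro G hG
    have hG' : ∀ l, ∑ i, G (Sum.inl i) * c i l + ∑ k, G (Sum.inr k) * bK k l = 0 := by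
      intro l
      have h1 := congrFun hG l
      rw [Finset.sum_apply, Fintype.sum_sum_type] at h1
      exact h1
    have hbval : ∀ (k : {k // k ∉ U}) (i : Fin j), ∑ l, c i l * Ψ k (r l) = 0 := by
      intro k i
      exact hc i κ[Γ] (Algebra.lmul κ κ[Γ]) (Ψ k) (fun x y => hΨ k x y)
        (fun i' hi' b => hΨ0 k i' (fun h => k.2 (h ▸ hi')) (hUJ i' hi') b)
    have hK : ∀ k : {k // k ∉ U}, G (Sum.inr k) = 0 := by
      have h1 : N.mulVec (fun k => G (Sum.inr k)) = 0 := by
        funext k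
        have h2 : ∑ l, (∑ i, G (Sum.inl i) * c i l + ∑ k, G (Sum.inr k) * bK k l) * Ψ k (r l)
            = 0 := Finset.sum_eq_zero fun l _ => by rw [hG', zero_mul]
        have h3 : ∑ l, (∑ i, G (Sum.inl i) * c i l + ∑ k, G (Sum.inr k) * bK k l) * Ψ k (r l) =
            ∑ i, G (Sum.inl i) * ∑ l, c i l * Ψ k (r l) +
            ∑ k', G (Sum.inr k') * ∑ l, bK k' l * Ψ k (r l) := by
          simp only [Finset.sum_mul, Finset.mul_sum, mul_assoc, add_mul,
            Finset.sum_add_distrib]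
          congr 1
          · rw [Finset.sum_comm]
          · rw [Finset.sum_comm]
        rw [h3, Finset.sum_eq_zero (fun i _ => by rw [hbval k i, mul_zero]), zero_add] at h2
        rw [Matrix.mulVec, dotProduct, Pi.zero_apply, ← h2]
        refine Finset.sum_congr rfl fun k' _ => ?_
        change (∑ l, bK k' l * Ψ k (r l)) * G (Sum.inr k') = _
        rw [mul_comm]
      have h5 := Matrix.eq_zero_of_mulVec_eq_zero hN h1
      exact fun k => congrFun h5 k
    have hC : ∀ i, G (Sum.inl i) = 0 := by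
      have h1 : Matrix.vecMul (fun i => G (Sum.inl i))
          (Matrix.of fun (i i' : Fin j) => c i (g i')) = 0 := by
        funext i'
        have h2 := hG' (g i')
        rw [Finset.sum_eq_zero (s := Finset.univ) (f := fun k => G (Sum.inr k) * bK k (g i'))
          (fun k _ => by rw [hK k, zero_mul]), add_zero] at h2
        rw [Matrix.vecMul, dotProduct, Pi.zero_apply, ← h2]
        rfl
      have h5 := Matrix.eq_zero_of_vecMul_eq_zero hg h1
      exact fun i => congrFun h5 i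
    intro i
    rcases i with i | k
    · exact hC i
    · exact hK k
  have hfin := hli.fintype_card_le_finrank
  rw [Module.finrank_fin_fun, Fintype.card_sum, Fintype.card_fin] at hfin
  have hcardK : Fintype.card {k // k ∉ U} = Fintype.card ι - U.card := by
    rw [Fintype.card_subtype_compl, Fintype.card_coe]
  have hUι : U.card ≤ Fintype.card ι := Finset.card_le_univ U
  omega

end Pool.Agent.H90.FR
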