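import Mathlib
import Pool.Agent.Lib_helper90.FR.Main2

set_option autoImplicit false

namespace Pool.Agent.H90.FR

universe u v w

theorem mem_ratDer_iff {G : Type u} [Group G] (x : G) :
    x ∈ ratDer G ↔ ∃ k : ℕ, 0 < k ∧ x ^ k ∈ commutator G := by
  unfold ratDer
  rw [Subgroup.mem_comap, CommGroup.mem_torsion, isOfFinOrder_iff_pow_eq_one]
  constructor
  · rintro ⟨k, hk, h⟩
    refine ⟨k, hk, ?_⟩
    rw [← map_pow, ← MonoidHom.mem_ker, Abelianization.ker_of] at h
    exact h
  · rintro ⟨k, hk, h⟩
    refine ⟨k, hk, ?_⟩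
    rw [← map_pow, ← MonoidHom.mem_ker, Abelianization.ker_of]
    exact h

theorem map_mem_commutator {G : Type u} {H : Type v} [Group G] [Group H] (f : G →* H) (x : G)
    (hx : x ∈ commutator G) : f x ∈ commutator H := by
  have h1 : f x ∈ Subgroup.map f (commutator G) := ⟨x, hx, rfl⟩
  have h2 : Subgroup.map f (commutator G) ≤ commutator H := by
    rw [commutator_def, commutator_def, Subgroup.map_commutator]
    exact Subgroup.commutator_mono le_top le_top
  exact h2 h1

theorem map_mem_ratDer {G : Type u} {H : Type v} [Group G] [Group H] (f : G →* H) (x : G)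
    (hx : x ∈ ratDer G) : f x ∈ ratDer H := by
  rw [mem_ratDer_iff] at hx ⊢
  obtain ⟨k, hk, h⟩ := hx
  refine ⟨k, hk, ?_⟩
  rw [← map_pow]
  exact map_mem_commutator f _ h

theorem map_mem_ratDer2 {G : Type u} {H : Type v} [Group G] [Group H] (f : G →* H) (x : G)
    (hx : x ∈ ratDer2 G) : f x ∈ ratDer2 H := by
  rw [mem_ratDer2] at hx ⊢
  obtain ⟨h1, h2⟩ := hx
  refine ⟨map_mem_ratDer f x h1, ?_⟩
  let g : ratDer G →* ratDer H :=
    (f.comp (ratDer G).subtype).codRestrict (ratDer H) fun y => map_mem_ratDer f y y.2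
  exact map_mem_ratDer g _ h2

/-- Groups which are (torsion-free abelian)-by-(torsion-free abelian) have trivial second
rational derived subgroup. -/
theorem eq_one_of_mem_ratDer2 {G : Type u} [Group G] (B : Subgroup G)
    (h1 : ∀ x y : G, x * y * x⁻¹ * y⁻¹ ∈ B) (h2 : ∀ x ∈ B, ∀ y ∈ B, x * y = y * x)
    (h3 : ∀ x ∈ B, ∀ k : ℕ, 0 < k → x ^ k = 1 → x = 1)
    (h4 : ∀ x : G, ∀ k : ℕ, 0 < k → x ^ k ∈ B → x ∈ B) (a : G) (ha : a ∈ ratDer2 G) :
    a = 1 := by
  have hc : commutator G ≤ B := by
    rw [commutator_def, Subgroup.commutator_le]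
    exact fun x _ y _ => h1 x y
  have hB : ratDer G ≤ B := by
    intro x hx
    rw [mem_ratDer_iff] at hx
    obtain ⟨k, hk, h⟩ := hx
    exact h4 x k hk (hc h)
  rw [mem_ratDer2] at ha
  obtain ⟨ha1, ha2⟩ := ha
  rw [mem_ratDer_iff] at ha2
  obtain ⟨k, hk, h⟩ := ha2
  have hbot : commutator (ratDer G) ≤ ⊥ := by
    rw [commutator_def, Subgroup.commutator_le]
    intro x _ y _
    rw [Subgroup.mem_bot, commutatorElement_eq_one_iff_mul_comm]
    exact Subtype.ext (h2 x (hB x.2) y (hB y.2))
  have h5 := hbot h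
  rw [Subgroup.mem_bot] at h5
  have h6 : a ^ k = 1 := congrArg Subtype.val h5
  exact h3 a (hB ha1) k hk h6

/-- The map between free products induced by an inclusion of index sets, and its retraction. -/
theorem coprod_retract {ι : Type} [DecidableEq ι] {A : ι → Type u} [∀ i, Group (A i)]
    {S X : Finset ι} (hSX : S ⊆ X) :
    ∃ (f : Monoid.CoprodI (fun i : S => A i) →* Monoid.CoprodI (fun i : X => A i))
      (g : Monoid.CoprodI (fun i : X => A i) →* Monoid.CoprodI (fun i : S => A i)),
      (∀ x, g (f x) = x) ∧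
      ∀ x, Monoid.CoprodI.lift (M := fun i : X => A i)
        (fun i => Monoid.CoprodI.of (M := A) (i := (i : ι))) (f x) =
        Monoid.CoprodI.lift (M := fun i : S => A i)
          (fun i => Monoid.CoprodI.of (M := A) (i := (i : ι))) x := by
  let f : Monoid.CoprodI (fun i : S => A i) →* Monoid.CoprodI (fun i : X => A i) :=
    Monoid.CoprodI.lift (M := fun i : S => A i)
      (fun i => Monoid.CoprodI.of (M := fun i : X => A i) (i := ⟨i, hSX i.2⟩))
  let g : Monoid.CoprodI (fun i : X => A i) →* Monoid.CoprodI (fun i : S => A i) :=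
    Monoid.CoprodI.lift (M := fun i : X => A i)
      (fun i => if h : (i : ι) ∈ S then Monoid.CoprodI.of (M := fun i : S => A i)
        (i := ⟨i, h⟩) else 1)
  refine ⟨f, g, ?_, ?_⟩
  · intro x
    have h1 : g.comp f = MonoidHom.id _ := by
      apply Monoid.CoprodI.ext_hom
      intro i
      ext a
      rw [MonoidHom.comp_apply, MonoidHom.comp_apply]
      change g (Monoid.CoprodI.lift (M := fun i : S => A i)
        (fun i => Monoid.CoprodI.of (M := fun i : X => A i) (i := ⟨i, hSX i.2⟩))
        (Monoid.CoprodI.of a)) = _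
      rw [Monoid.CoprodI.lift_of]
      change Monoid.CoprodI.lift (M := fun i : X => A i)
        (fun i => if h : (i : ι) ∈ S then Monoid.CoprodI.of (M := fun i : S => A i)
          (i := ⟨i, h⟩) else 1) (Monoid.CoprodI.of (M := fun i : X => A i)
            (i := ⟨i, hSX i.2⟩) a) = _
      rw [Monoid.CoprodI.lift_of (M := fun i : X => A i), dif_pos i.2]
      rfl
    exact DFunLike.congr_fun h1 x
  · intro x
    have h1 : (Monoid.CoprodI.lift (M := fun i : X => A i)
        (fun i => Monoid.CoprodI.of (M := A) (i := (i : ι)))).comp f =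
        Monoid.CoprodI.lift (M := fun i : S => A i)
          (fun i => Monoid.CoprodI.of (M := A) (i := (i : ι))) := by
      apply Monoid.CoprodI.ext_hom
      intro i
      ext a
      rw [MonoidHom.comp_apply, MonoidHom.comp_apply, MonoidHom.comp_apply]
      change Monoid.CoprodI.lift (M := fun i : X => A i) _ (Monoid.CoprodI.lift
        (M := fun i : S => A i)
        (fun i => Monoid.CoprodI.of (M := fun i : X => A i) (i := ⟨i, hSX i.2⟩))
        (Monoid.CoprodI.of a)) = _
      rw [Monoid.CoprodI.lift_of, Monoid.CoprodI.lift_of,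
        Monoid.CoprodI.lift_of (M := fun i : S => A i)]
    exact DFunLike.congr_fun h1 x

/-- The Freiheitssatz modulo the second rational derived subgroup. -/
theorem main {n m : ℕ} (hmn : m < n) {A : Fin n → Type u} [∀ i, Group (A i)]
    (r : Fin m → Monoid.CoprodI A) :
    ∃ S : Finset (Fin n), S.card = n - m ∧
      ∀ x : Monoid.CoprodI (fun i : S => A i),
        QuotientGroup.mk' (Subgroup.normalClosure (Set.range r))
          (Monoid.CoprodI.lift (M := fun i : S => A i)
            (fun i => Monoid.CoprodI.of (i := (i : Fin n))) x) ∈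
          ratDer2 (Monoid.CoprodI A ⧸ Subgroup.normalClosure (Set.range r)) →
        x ∈ ratDer2 (Monoid.CoprodI (fun i : S => A i)) := by
  by_contra hcon
  push Not at hcon
  have h1 := core2 r (n - m - 1) (by
    intro X hX
    obtain ⟨S, hSX, hS⟩ := Finset.exists_subset_card_eq (show n - m ≤ X.card by omega)
    obtain ⟨x, hx, hx2⟩ := hcon S hS
    obtain ⟨f, g, hgf, hf⟩ := coprod_retract (A := A) hSX
    refine ⟨f x, ?_, ?_⟩
    · rw [hf]
      exact hx
    · intro h
      apply hx2
      rw [← hgf x]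
      exact map_mem_ratDer2 g _ h)
  rw [Fintype.card_fin] at h1
  omega

end Pool.Agent.H90.FR
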